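import Pool.Agent.Helper14_DK.Fin2
import Pool.Agent.Helper21_DK.Abs
import Pool.Agent.Helper21_DK.Eps
import Pool.Agent.Helper92_DK.Avg
import Pool.Agent.Helper92_DK.Glue
import Pool.Agent.Helper68_DK.Bnd
import Pool.Agent.Helper68_DK.Nice
import Pool.Agent.Helper79_DK.Cnv
import Pool.Agent.Helper79_DK.Wpk
import Pool.Agent.Helper20_DK.Cut
import Pool.Agent.Helper9_DK.Dual
import Pool.Agent.Helper47_DK.H
import Pool.Agent.Helper47_DK.Est
import Pool.Agent.Helper59_DK.Ident
import Pool.Agent.Helper35_DK.Ker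
import Pool.Agent.Helper35_DK.Mol
import Pool.Agent.Helper69_DK.KL
import Pool.Agent.Helper69_DK.Step
import Pool.Agent.Helper18_DK.LB
import Pool.Agent.Helper18_DK.LC
import Pool.Agent.Helper88_DK.Lev
import Pool.Agent.Helper88_DK.Near
import Pool.Agent.Helper7_DK.Lip
import Pool.Agent.Helper81_DK.Loc
import Pool.Agent.Helper63_DK.Tel
import Pool.Agent.Helper63_DK.Pc1
import Pool.Agent.Helper4_DK.Pc2
import Pool.Agent.Helper4_DK.Pou
import Pool.Agent.Helper43_DK.Round
import Pool.Agent.Helper43_DK.Sum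
import Pool.Agent.Helper19_DK.Seq
import Pool.Agent.Helper44_DK.Chi
import Pool.Agent.Helper44_DK.Apr

/-! Parts H and S assembled. -/

set_option autoImplicit false

namespace Pool.Agent.DK

/-- Hoermander's theorem (weak form), from APR and CHI -/
theorem hStmt_of (apr : AprStmt) (chi : ChiStmt) : HStmt :=
  H47.h (H79.wpk H18.lc chi)
    (H9.dual (H69.kl H81.loc (H21.eps apr H35.mol H79.cnv)) H21.abs)

theorem pieceStmt : PieceStmt :=
  H7.piece (H63.pc1 (H88.lev H88.near H18.lc) H18.lc) (H4.pc2 H18.lc)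

theorem roundStmt_of (h : HStmt) : RoundStmt :=
  H43.round (H69.step h pieceStmt H4P.pou H92.glue)

theorem sStmt_of (seq : SeqStmt) : SStmt :=
  H14.fin seq H35.ker (H47.est H7.lip (H68.bnd H79.cnv) (H63.tel H79.cnv))
    (H43.sum H20.cutf) H92.avg H20.cut (H68.bnd H79.cnv)

/-- everything from APR -/
theorem hStmt_of' (apr : AprStmt) : HStmt := hStmt_of apr H44.chi

theorem sStmt_of' (apr : AprStmt) : SStmt :=
  sStmt_of (H19.seq (roundStmt_of (hStmt_of' apr)))

theorem aprStmt : AprStmt := H44.apr (H59.ident H18.lb)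

/-- **Hoermander's theorem** (weak form) -/
theorem hStmt : HStmt := hStmt_of' aprStmt

/-- **the interface of part S** -/
theorem sStmt : SStmt := sStmt_of' aprStmt

theorem niceStmt : NiceStmt := H68.nice

end Pool.Agent.DK
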