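import Pool.Agent.Helper14_DK.Defs

/-!
# Calculus with `∂/∂z_j`, `∂/∂z̄_j` and test functions
-/

set_option autoImplicit false

namespace Pool.Agent.DK

open MeasureTheory Complex Set Metric
open scoped ContDiff Topology

/-- smooth complex valued functions with compact support in `D` -/
structure IsTest {n : ℕ} (D : Set (E n)) (ψ : E n → ℂ) : Prop where
  sm : ContDiff ℝ ∞ ψ
  cpt : HasCompactSupport ψ
  sub : tsupport ψ ⊆ D

variable {n : ℕ} {D D' : Set (E n)} {f g ψ v : E n → ℂ} {z : E n} {j k : Fin n}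

/-! ### pointwise rules -/

theorem dbar_congr {f g : E n → ℂ} {z : E n} (h : f =ᶠ[𝓝 z] g) (j : Fin n) :
    dbar j f z = dbar j g z := by
  unfold dbar; rw [h.fderiv_eq]

theorem dz_congr {f g : E n → ℂ} {z : E n} (h : f =ᶠ[𝓝 z] g) (j : Fin n) :
    dz j f z = dz j g z := by
  unfold dz; rw [h.fderiv_eq]

theorem dbar_const (c : ℂ) : dbar j (fun _ => c) z = 0 := by
  simp [dbar]

theorem dz_const (c : ℂ) : dz j (fun _ => c) z = 0 := by
  simp [dz]

theorem dbar_add (hf : DifferentiableAt ℝ f z) (hg : DifferentiableAt ℝ g z) :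
    dbar j (fun y => f y + g y) z = dbar j f z + dbar j g z := by
  unfold dbar
  rw [fderiv_fun_add hf hg]
  simp only [ContinuousLinearMap.add_apply]
  ring

theorem dz_add (hf : DifferentiableAt ℝ f z) (hg : DifferentiableAt ℝ g z) :
    dz j (fun y => f y + g y) z = dz j f z + dz j g z := by
  unfold dz
  rw [fderiv_fun_add hf hg]
  simp only [ContinuousLinearMap.add_apply]
  ring

theorem dbar_sub (hf : DifferentiableAt ℝ f z) (hg : DifferentiableAt ℝ g z) :
    dbar j (fun y => f y - g y) z = dbar j f z - dbar j g z := by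
  unfold dbar
  rw [fderiv_fun_sub hf hg]
  simp only [ContinuousLinearMap.sub_apply]
  ring

theorem dz_sub (hf : DifferentiableAt ℝ f z) (hg : DifferentiableAt ℝ g z) :
    dz j (fun y => f y - g y) z = dz j f z - dz j g z := by
  unfold dz
  rw [fderiv_fun_sub hf hg]
  simp only [ContinuousLinearMap.sub_apply]
  ring

theorem dbar_neg : dbar j (fun y => - f y) z = - dbar j f z := by
  unfold dbar
  rw [fderiv_fun_neg]
  simp only [ContinuousLinearMap.neg_apply]
  ring

theorem dz_neg : dz j (fun y => - f y) z = - dz j f z := by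
  unfold dz
  rw [fderiv_fun_neg]
  simp only [ContinuousLinearMap.neg_apply]
  ring

theorem dbar_mul (hf : DifferentiableAt ℝ f z) (hg : DifferentiableAt ℝ g z) :
    dbar j (fun y => f y * g y) z = dbar j f z * g z + f z * dbar j g z := by
  unfold dbar
  rw [fderiv_fun_mul hf hg]
  simp only [ContinuousLinearMap.add_apply, ContinuousLinearMap.smul_apply, smul_eq_mul]
  ring

theorem dz_mul (hf : DifferentiableAt ℝ f z) (hg : DifferentiableAt ℝ g z) :
    dz j (fun y => f y * g y) z = dz j f z * g z + f z * dz j g z := by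
  unfold dz
  rw [fderiv_fun_mul hf hg]
  simp only [ContinuousLinearMap.add_apply, ContinuousLinearMap.smul_apply, smul_eq_mul]
  ring

theorem dbar_const_mul (c : ℂ) (hf : DifferentiableAt ℝ f z) :
    dbar j (fun y => c * f y) z = c * dbar j f z := by
  rw [dbar_mul (differentiableAt_const c) hf, dbar_const]; ring

theorem dz_const_mul (c : ℂ) (hf : DifferentiableAt ℝ f z) :
    dz j (fun y => c * f y) z = c * dz j f z := by
  rw [dz_mul (differentiableAt_const c) hf, dz_const]; ring

theorem fderiv_conj (z v : E n) (f : E n → ℂ) :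
    fderiv ℝ (fun y => (starRingEnd ℂ) (f y)) z v = (starRingEnd ℂ) (fderiv ℝ f z v) := by
  have h := (Complex.conjCLE : ℂ ≃L[ℝ] ℂ).comp_fderiv (f := f) (x := z)
  have e : (fun y => (starRingEnd ℂ) (f y)) = (Complex.conjCLE : ℂ ≃L[ℝ] ℂ) ∘ f := by
    funext y; simp
  rw [e, h]
  simp

theorem dbar_conj (z : E n) (j : Fin n) (f : E n → ℂ) :
    dbar j (fun y => (starRingEnd ℂ) (f y)) z = (starRingEnd ℂ) (dz j f z) := by
  unfold dbar dz
  rw [fderiv_conj, fderiv_conj]
  simp only [map_div₀, map_sub, map_mul, Complex.conj_I]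
  have : (starRingEnd ℂ) (2 : ℂ) = 2 := by
    exact_mod_cast Complex.conj_ofReal 2
  rw [this]
  ring

theorem dz_conj (z : E n) (j : Fin n) (f : E n → ℂ) :
    dz j (fun y => (starRingEnd ℂ) (f y)) z = (starRingEnd ℂ) (dbar j f z) := by
  unfold dbar dz
  rw [fderiv_conj, fderiv_conj]
  simp only [map_div₀, map_add, map_mul, Complex.conj_I]
  have : (starRingEnd ℂ) (2 : ℂ) = 2 := by
    exact_mod_cast Complex.conj_ofReal 2
  rw [this]
  ring

theorem fderiv_comp_left_sub (z y : E n) (g : E n → ℂ) (v : E n) :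
    fderiv ℝ (fun w => g (z - w)) y v = - fderiv ℝ g (z - y) v := by
  have h1 : (fun w => g (z - w)) = (fun u => g (z + u)) ∘
      (ContinuousLinearEquiv.neg ℝ : E n ≃L[ℝ] E n) := by
    funext w; simp [sub_eq_add_neg]
  rw [h1, ContinuousLinearEquiv.comp_right_fderiv]
  simp only [ContinuousLinearMap.comp_apply, ContinuousLinearEquiv.coe_coe,
    ContinuousLinearEquiv.neg_apply]
  rw [fderiv_comp_add_left]
  simp [sub_eq_add_neg]

/-- translation -/
theorem dbar_comp_sub_left (z y : E n) (j : Fin n) (g : E n → ℂ) :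
    dbar j (fun w => g (z - w)) y = - dbar j g (z - y) := by
  have h := fderiv_comp_left_sub z y g
  unfold dbar
  rw [h, h]; ring

theorem dz_comp_sub_left (z y : E n) (j : Fin n) (g : E n → ℂ) :
    dz j (fun w => g (z - w)) y = - dz j g (z - y) := by
  have h := fderiv_comp_left_sub z y g
  unfold dz
  rw [h, h]; ring

/-- differentials of a complex valued function in terms of `dz`, `dbar` -/
theorem fderiv_single_one (f : E n → ℂ) (z : E n) (j : Fin n) :
    fderiv ℝ f z (Pi.single j 1) = dz j f z + dbar j f z := by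
  unfold dz dbar; ring

theorem fderiv_single_I (f : E n → ℂ) (z : E n) (j : Fin n) :
    fderiv ℝ f z (Pi.single j I) = I * (dz j f z - dbar j f z) := by
  unfold dz dbar
  have : I * I = -1 := Complex.I_mul_I
  linear_combination (fderiv ℝ f z (Pi.single j I)) * this

/-! ### commutation of derivatives -/

theorem contDiffAt_dbar {m : ℕ∞} (hf : ContDiffAt ℝ ((m : ℕ∞) + 1 : WithTop ℕ∞) f z) :
    ContDiffAt ℝ m (dbar j f) z := by
  have h : ContDiffAt ℝ m (fderiv ℝ f) z := hf.fderiv_right le_rfl
  unfold dbar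
  exact (((h.clm_apply contDiffAt_const).add (contDiffAt_const.mul
    (h.clm_apply contDiffAt_const))).div_const 2)

theorem contDiffAt_dz {m : ℕ∞} (hf : ContDiffAt ℝ ((m : ℕ∞) + 1 : WithTop ℕ∞) f z) :
    ContDiffAt ℝ m (dz j f) z := by
  have h : ContDiffAt ℝ m (fderiv ℝ f) z := hf.fderiv_right le_rfl
  unfold dz
  exact (((h.clm_apply contDiffAt_const).sub (contDiffAt_const.mul
    (h.clm_apply contDiffAt_const))).div_const 2)

theorem contDiff_dbar (hf : ContDiff ℝ ∞ f) : ContDiff ℝ ∞ (dbar j f) :=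
  contDiff_iff_contDiffAt.2 fun z => contDiffAt_dbar (m := ⊤) (by simpa using hf.contDiffAt)

theorem contDiff_dz (hf : ContDiff ℝ ∞ f) : ContDiff ℝ ∞ (dz j f) :=
  contDiff_iff_contDiffAt.2 fun z => contDiffAt_dz (m := ⊤) (by simpa using hf.contDiffAt)

/-- the directional derivative of a directional derivative -/
theorem fderiv_fderiv_apply (hf : ContDiffAt ℝ 2 f z) (u v : E n) :
    fderiv ℝ (fun y => fderiv ℝ f y u) z v = fderiv ℝ (fderiv ℝ f) z v u := by
  have h : DifferentiableAt ℝ (fderiv ℝ f) z :=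
    (hf.fderiv_right (m := 1) (by norm_num)).differentiableAt (by norm_num)
  have := fderiv_clm_apply (𝕜 := ℝ) h (differentiableAt_const u)
  rw [this]
  simp

theorem fderiv_symm (hf : ContDiffAt ℝ 2 f z) (u v : E n) :
    fderiv ℝ (fderiv ℝ f) z v u = fderiv ℝ (fderiv ℝ f) z u v := by
  have h : IsSymmSndFDerivAt ℝ f z := hf.isSymmSndFDerivAt (by simp)
  exact h v u

theorem diff_fderiv_apply (hf : ContDiffAt ℝ 2 f z) (u : E n) :
    DifferentiableAt ℝ (fun y => fderiv ℝ f y u) z := by
  have h : DifferentiableAt ℝ (fderiv ℝ f) z :=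
    (hf.fderiv_right (m := 1) (by norm_num)).differentiableAt (by norm_num)
  exact h.clm_apply (differentiableAt_const u)

theorem fderiv_dbar (hf : ContDiffAt ℝ 2 f z) (v : E n) :
    fderiv ℝ (dbar j f) z v = (fderiv ℝ (fderiv ℝ f) z v (Pi.single j 1) +
      I * fderiv ℝ (fderiv ℝ f) z v (Pi.single j I)) / 2 := by
  have h1 := diff_fderiv_apply hf (Pi.single j 1)
  have h2 := diff_fderiv_apply hf (Pi.single j I)
  have e : dbar j f = fun y => (2 : ℂ)⁻¹ * (fderiv ℝ f y (Pi.single j 1) +
      I * fderiv ℝ f y (Pi.single j I)) := by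
    funext y; unfold dbar; ring
  have h3 : HasFDerivAt (fun y => (2 : ℂ)⁻¹ * (fderiv ℝ f y (Pi.single j 1) +
      I * fderiv ℝ f y (Pi.single j I))) ((2 : ℂ)⁻¹ •
        (fderiv ℝ (fun y => fderiv ℝ f y (Pi.single j 1)) z +
          I • fderiv ℝ (fun y => fderiv ℝ f y (Pi.single j I)) z)) z :=
    (h1.hasFDerivAt.add (h2.hasFDerivAt.const_mul I)).const_mul _
  rw [e, h3.fderiv]
  simp only [ContinuousLinearMap.add_apply, ContinuousLinearMap.smul_apply, smul_eq_mul]
  rw [fderiv_fderiv_apply hf, fderiv_fderiv_apply hf]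
  ring

theorem fderiv_dz (hf : ContDiffAt ℝ 2 f z) (v : E n) :
    fderiv ℝ (dz j f) z v = (fderiv ℝ (fderiv ℝ f) z v (Pi.single j 1) -
      I * fderiv ℝ (fderiv ℝ f) z v (Pi.single j I)) / 2 := by
  have h1 := diff_fderiv_apply hf (Pi.single j 1)
  have h2 := diff_fderiv_apply hf (Pi.single j I)
  have e : dz j f = fun y => (2 : ℂ)⁻¹ * (fderiv ℝ f y (Pi.single j 1) -
      I * fderiv ℝ f y (Pi.single j I)) := by
    funext y; unfold dz; ring
  have h3 : HasFDerivAt (fun y => (2 : ℂ)⁻¹ * (fderiv ℝ f y (Pi.single j 1) -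
      I * fderiv ℝ f y (Pi.single j I))) ((2 : ℂ)⁻¹ •
        (fderiv ℝ (fun y => fderiv ℝ f y (Pi.single j 1)) z -
          I • fderiv ℝ (fun y => fderiv ℝ f y (Pi.single j I)) z)) z :=
    (h1.hasFDerivAt.sub (h2.hasFDerivAt.const_mul I)).const_mul _
  rw [e, h3.fderiv]
  simp only [ContinuousLinearMap.sub_apply, ContinuousLinearMap.smul_apply, smul_eq_mul]
  rw [fderiv_fderiv_apply hf, fderiv_fderiv_apply hf]
  ring

theorem dbar_dbar_comm (hf : ContDiffAt ℝ 2 f z) :
    dbar j (dbar k f) z = dbar k (dbar j f) z := by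
  have e1 : dbar j (dbar k f) z = (fderiv ℝ (dbar k f) z (Pi.single j 1) +
    I * fderiv ℝ (dbar k f) z (Pi.single j I)) / 2 := rfl
  have e2 : dbar k (dbar j f) z = (fderiv ℝ (dbar j f) z (Pi.single k 1) +
    I * fderiv ℝ (dbar j f) z (Pi.single k I)) / 2 := rfl
  rw [e1, e2]
  simp only [fderiv_dbar hf]
  rw [fderiv_symm hf (Pi.single j 1) (Pi.single k 1),
    fderiv_symm hf (Pi.single j 1) (Pi.single k I),
    fderiv_symm hf (Pi.single j I) (Pi.single k 1),
    fderiv_symm hf (Pi.single j I) (Pi.single k I)]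
  ring

theorem dbar_dz_comm (hf : ContDiffAt ℝ 2 f z) :
    dbar j (dz k f) z = dz k (dbar j f) z := by
  have e1 : dbar j (dz k f) z = (fderiv ℝ (dz k f) z (Pi.single j 1) +
    I * fderiv ℝ (dz k f) z (Pi.single j I)) / 2 := rfl
  have e2 : dz k (dbar j f) z = (fderiv ℝ (dbar j f) z (Pi.single k 1) -
    I * fderiv ℝ (dbar j f) z (Pi.single k I)) / 2 := rfl
  rw [e1, e2]
  simp only [fderiv_dbar hf, fderiv_dz hf]
  rw [fderiv_symm hf (Pi.single j 1) (Pi.single k 1),
    fderiv_symm hf (Pi.single j 1) (Pi.single k I),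
    fderiv_symm hf (Pi.single j I) (Pi.single k 1),
    fderiv_symm hf (Pi.single j I) (Pi.single k I)]
  ring

theorem dz_dz_comm (hf : ContDiffAt ℝ 2 f z) :
    dz j (dz k f) z = dz k (dz j f) z := by
  have e1 : dz j (dz k f) z = (fderiv ℝ (dz k f) z (Pi.single j 1) -
    I * fderiv ℝ (dz k f) z (Pi.single j I)) / 2 := rfl
  have e2 : dz k (dz j f) z = (fderiv ℝ (dz j f) z (Pi.single k 1) -
    I * fderiv ℝ (dz j f) z (Pi.single k I)) / 2 := rfl
  rw [e1, e2]
  simp only [fderiv_dz hf]
  rw [fderiv_symm hf (Pi.single j 1) (Pi.single k 1),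
    fderiv_symm hf (Pi.single j 1) (Pi.single k I),
    fderiv_symm hf (Pi.single j I) (Pi.single k 1),
    fderiv_symm hf (Pi.single j I) (Pi.single k I)]
  ring

/-! ### real functions -/

theorem contDiffOn_cx {m : WithTop ℕ∞} {F : E n → ℝ} (hF : ContDiffOn ℝ m F D) :
    ContDiffOn ℝ m (cx F) D :=
  Complex.ofRealCLM.contDiff.comp_contDiffOn hF

theorem contDiff_cx {m : WithTop ℕ∞} {F : E n → ℝ} (hF : ContDiff ℝ m F) :
    ContDiff ℝ m (cx F) :=
  Complex.ofRealCLM.contDiff.comp hF

theorem contDiffAt_cx {m : WithTop ℕ∞} {F : E n → ℝ} (hF : ContDiffAt ℝ m F z) :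
    ContDiffAt ℝ m (cx F) z :=
  Complex.ofRealCLM.contDiff.contDiffAt.comp z hF

theorem fderiv_cx {F : E n → ℝ} (hF : DifferentiableAt ℝ F z) (v : E n) :
    fderiv ℝ (cx F) z v = (fderiv ℝ F z v : ℂ) := by
  have : HasFDerivAt (cx F) (Complex.ofRealCLM.comp (fderiv ℝ F z)) z :=
    Complex.ofRealCLM.hasFDerivAt.comp z hF.hasFDerivAt
  rw [this.fderiv]
  simp

theorem dbar_cx {F : E n → ℝ} (z : E n) (j : Fin n) :
    dbar j (cx F) z = (starRingEnd ℂ) (dz j (cx F) z) := by
  rw [← dbar_conj]
  congr 1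
  funext y
  simp [cx]

theorem norm_dbar_cx {F : E n → ℝ} (z : E n) (j : Fin n) :
    ‖dbar j (cx F) z‖ = ‖dz j (cx F) z‖ := by
  rw [dbar_cx]; simp

/-! ### test functions -/

namespace IsTest

theorem mono (h : IsTest D ψ) (hD : D ⊆ D') : IsTest D' ψ := ⟨h.sm, h.cpt, h.sub.trans hD⟩

theorem differentiable (h : IsTest D ψ) : Differentiable ℝ ψ := h.sm.differentiable (by simp)

theorem continuous (h : IsTest D ψ) : Continuous ψ := h.sm.continuous

theorem zero_of_notMem (h : IsTest D ψ) {z : E n} (hz : z ∉ D) : ψ z = 0 :=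
  image_eq_zero_of_notMem_tsupport fun h' => hz (h.sub h')

protected theorem zero (D : Set (E n)) : IsTest D (fun _ => (0 : ℂ)) :=
  ⟨contDiff_const, HasCompactSupport.zero, by
    have : tsupport (fun _ : E n => (0 : ℂ)) = ∅ := by
      simp [tsupport]
    rw [this]; exact empty_subset _⟩

protected theorem add (h : IsTest D ψ) (h' : IsTest D v) : IsTest D (fun z => ψ z + v z) :=
  ⟨h.sm.add h'.sm, h.cpt.add h'.cpt, (tsupport_add ψ v).trans (union_subset h.sub h'.sub)⟩

protected theorem neg (h : IsTest D ψ) : IsTest D (fun z => - ψ z) := by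
  refine ⟨h.sm.neg, ?_, ?_⟩
  · exact h.cpt.neg
  · have : tsupport (fun z => - ψ z) = tsupport ψ := tsupport_neg ψ
    rw [this]; exact h.sub

protected theorem sub' (h : IsTest D ψ) (h' : IsTest D v) : IsTest D (fun z => ψ z - v z) := by
  simpa [sub_eq_add_neg] using h.add h'.neg

theorem tsupport_mul_sub (f ψ : E n → ℂ) : tsupport (fun z => f z * ψ z) ⊆ tsupport ψ :=
  closure_mono fun z hz => by
    simp only [Function.mem_support, ne_eq, mul_eq_zero, not_or] at hz ⊢
    exact hz.2

/-- the product of a function smooth on `D` with a test function -/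
protected theorem mul (h : IsTest D ψ) (hD : IsOpen D) (hf : ContDiffOn ℝ ∞ f D) :
    IsTest D (fun z => f z * ψ z) := by
  refine ⟨?_, ?_, (tsupport_mul_sub f ψ).trans h.sub⟩
  · refine contDiff_iff_contDiffAt.2 fun z => ?_
    by_cases hz : z ∈ D
    · exact (hf.contDiffAt (hD.mem_nhds hz)).mul h.sm.contDiffAt
    · have hz' : z ∉ tsupport ψ := fun h' => hz (h.sub h')
      have : (fun z => f z * ψ z) =ᶠ[𝓝 z] fun _ => 0 := by
        have := (isClosed_tsupport ψ).isOpen_compl.mem_nhds hz'
        filter_upwards [this] with y hy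
        rw [image_eq_zero_of_notMem_tsupport hy, mul_zero]
      exact (contDiffAt_const (c := (0 : ℂ))).congr_of_eventuallyEq this
  · exact HasCompactSupport.intro' (K := tsupport ψ) h.cpt (isClosed_tsupport _) fun z hz => by
      rw [image_eq_zero_of_notMem_tsupport hz, mul_zero]

protected theorem const_mul (h : IsTest D ψ) (c : ℂ) : IsTest D (fun z => c * ψ z) := by
  refine ⟨contDiff_const.mul h.sm, ?_, (tsupport_mul_sub (fun _ => c) ψ).trans h.sub⟩
  exact HasCompactSupport.intro' (K := tsupport ψ) h.cpt (isClosed_tsupport _) fun z hz => by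
      rw [image_eq_zero_of_notMem_tsupport hz, mul_zero]

protected theorem conj (h : IsTest D ψ) : IsTest D (fun z => (starRingEnd ℂ) (ψ z)) := by
  have hs : tsupport (fun z => (starRingEnd ℂ) (ψ z)) = tsupport ψ := by
    unfold tsupport
    congr 1
    ext z
    simp
  refine ⟨Complex.conjCLE.contDiff.comp h.sm, ?_, ?_⟩
  · unfold HasCompactSupport; rw [hs]; exact h.cpt
  · rw [hs]; exact h.sub

theorem zero_fderiv (h : IsTest D ψ) {z : E n} (hz : z ∉ D) : fderiv ℝ ψ z = 0 := by
  have hz' : z ∉ tsupport ψ := fun h' => hz (h.sub h')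
  have : z ∉ tsupport (fderiv ℝ ψ) := fun h' => hz' (tsupport_fderiv_subset ℝ h')
  exact image_eq_zero_of_notMem_tsupport this

protected theorem dbar (h : IsTest D ψ) (j : Fin n) : IsTest D (dbar j ψ) := by
  have hz : ∀ z, z ∉ tsupport ψ → Pool.Agent.DK.dbar j ψ z = 0 := by
    intro z hz
    have h' : z ∉ tsupport (fderiv ℝ ψ) := fun h' => hz (tsupport_fderiv_subset ℝ h')
    simp [Pool.Agent.DK.dbar, image_eq_zero_of_notMem_tsupport h']
  refine ⟨contDiff_dbar h.sm, HasCompactSupport.intro' h.cpt (isClosed_tsupport _) hz, ?_⟩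
  refine (closure_minimal (fun z hz' => ?_) (isClosed_tsupport ψ)).trans h.sub
  by_contra hc
  exact hz' (hz z hc)

protected theorem dz (h : IsTest D ψ) (j : Fin n) : IsTest D (dz j ψ) := by
  have hz : ∀ z, z ∉ tsupport ψ → Pool.Agent.DK.dz j ψ z = 0 := by
    intro z hz
    have h' : z ∉ tsupport (fderiv ℝ ψ) := fun h' => hz (tsupport_fderiv_subset ℝ h')
    simp [Pool.Agent.DK.dz, image_eq_zero_of_notMem_tsupport h']
  refine ⟨contDiff_dz h.sm, HasCompactSupport.intro' h.cpt (isClosed_tsupport _) hz, ?_⟩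
  refine (closure_minimal (fun z hz' => ?_) (isClosed_tsupport ψ)).trans h.sub
  by_contra hc
  exact hz' (hz z hc)

theorem memLp (h : IsTest D ψ) (p : ENNReal) : MemLp ψ p (volume : Measure (E n)) :=
  h.continuous.memLp_of_hasCompactSupport h.cpt

theorem integrable (h : IsTest D ψ) : Integrable ψ (volume : Measure (E n)) :=
  h.continuous.integrable_of_hasCompactSupport h.cpt

end IsTest

/-- `f` locally square integrable on `D`, `ψ` continuous with compact support in `D` -/
theorem integrable_mul_test {f : E n → ℂ} (hf : MemLp f 2 (volume.restrict D))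
    (h : IsTest D ψ) : Integrable (fun z => f z * ψ z) := by
  have h1 : Integrable (fun z => f z * ψ z) (volume.restrict D) :=
    hf.integrable_mul ((h.memLp 2).restrict D)
  refine IntegrableOn.integrable_of_forall_notMem_eq_zero h1 fun z hz => ?_
  rw [h.zero_of_notMem hz, mul_zero]

theorem integrable_mul_test' {f : E n → ℂ} (hf : MemLp f 2 volume)
    (h : IsTest D ψ) : Integrable (fun z => f z * ψ z) :=
  hf.integrable_mul (h.memLp 2)

/-- continuous on `D` times test -/
theorem integrable_contOn_mul_test (hD : IsOpen D) {f : E n → ℂ} (hf : ContinuousOn f D)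
    (h : IsTest D ψ) : Integrable (fun z => f z * ψ z) := by
  have hc : Continuous (fun z => f z * ψ z) := by
    refine continuous_iff_continuousAt.2 fun z => ?_
    by_cases hz : z ∈ D
    · exact (hf.continuousAt (hD.mem_nhds hz)).mul h.continuous.continuousAt
    · have hz' : z ∉ tsupport ψ := fun h' => hz (h.sub h')
      have : (fun z => f z * ψ z) =ᶠ[𝓝 z] fun _ => 0 := by
        have := (isClosed_tsupport ψ).isOpen_compl.mem_nhds hz'
        filter_upwards [this] with y hy
        rw [image_eq_zero_of_notMem_tsupport hy, mul_zero]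
      exact (continuousAt_const (y := (0 : ℂ))).congr this.symm
  exact hc.integrable_of_hasCompactSupport (HasCompactSupport.intro' (K := tsupport ψ) h.cpt
    (isClosed_tsupport _) fun z hz => by rw [image_eq_zero_of_notMem_tsupport hz, mul_zero])

/-! ### integration by parts -/

theorem integral_fderiv_mul (hD : IsOpen D) {f : E n → ℂ} (hf : ContDiffOn ℝ 1 f D)
    (h : IsTest D ψ) (v : E n) :
    ∫ z, f z * fderiv ℝ ψ z v = - ∫ z, fderiv ℝ f z v * ψ z := by
  have hψ' : Continuous (fun z => fderiv ℝ ψ z v) :=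
    (h.sm.continuous_fderiv (by simp)).clm_apply continuous_const
  have hsub : tsupport (fun z => fderiv ℝ ψ z v) ⊆ tsupport ψ :=
    tsupport_fderiv_apply_subset ℝ v
  have hcont : ∀ (a b : E n → ℂ), ContinuousOn a D → Continuous b → tsupport b ⊆ tsupport ψ →
      Integrable (fun z => a z * b z) := by
    intro a b ha hb hs
    have hc : Continuous (fun z => a z * b z) := by
      refine continuous_iff_continuousAt.2 fun z => ?_
      by_cases hz : z ∈ D
      · exact (ha.continuousAt (hD.mem_nhds hz)).mul hb.continuousAt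
      · have hz' : z ∉ tsupport b := fun h' => hz (h.sub (hs h'))
        have : (fun z => a z * b z) =ᶠ[𝓝 z] fun _ => 0 := by
          have := (isClosed_tsupport b).isOpen_compl.mem_nhds hz'
          filter_upwards [this] with y hy
          rw [image_eq_zero_of_notMem_tsupport hy, mul_zero]
        exact (continuousAt_const (y := (0 : ℂ))).congr this.symm
    exact hc.integrable_of_hasCompactSupport (HasCompactSupport.intro' (K := tsupport ψ) h.cpt
      (isClosed_tsupport _) fun z hz => by
        rw [image_eq_zero_of_notMem_tsupport (fun h' => hz (hs h')), mul_zero])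
  have hf' : ContinuousOn (fun z => fderiv ℝ f z v) D :=
    (hf.continuousOn_fderiv_of_isOpen hD le_rfl).clm_apply continuousOn_const
  -- cut off `f`
  have key := integral_mul_fderiv_eq_neg_fderiv_mul_of_integrable (μ := (volume : Measure (E n)))
    (f := f) (g := ψ) (v := v)
    (hcont _ _ hf' h.continuous le_rfl) (hcont _ _ hf.continuousOn hψ' hsub)
    (hcont _ _ hf.continuousOn h.continuous le_rfl)
    (fun x hx => (hf.contDiffAt (hD.mem_nhds (h.sub hx))).differentiableAt (by norm_num))
    (fun x _ => h.differentiable x)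
  exact key

theorem integrable_fderiv_mul₁ (hD : IsOpen D) {f : E n → ℂ} (hf : ContinuousOn f D)
    (h : IsTest D ψ) (v : E n) : Integrable (fun z => f z * fderiv ℝ ψ z v) := by
  have : IsTest D (fun z => fderiv ℝ ψ z v) := by
    have hz : ∀ z, z ∉ tsupport ψ → fderiv ℝ ψ z v = 0 := by
      intro z hz
      have h' : z ∉ tsupport (fderiv ℝ ψ) := fun h' => hz (tsupport_fderiv_subset ℝ h')
      simp [image_eq_zero_of_notMem_tsupport h']
    refine ⟨(h.sm.fderiv_right (m := ∞) (by simp)).clm_apply contDiff_const,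
      HasCompactSupport.intro' h.cpt (isClosed_tsupport _) hz, ?_⟩
    refine (closure_minimal (fun z hz' => ?_) (isClosed_tsupport ψ)).trans h.sub
    by_contra hc
    exact hz' (hz z hc)
  exact integrable_contOn_mul_test hD hf this

/-- integration by parts for `∂/∂z̄_j` -/
theorem integral_mul_dbar (hD : IsOpen D) {f : E n → ℂ} (hf : ContDiffOn ℝ 1 f D)
    (h : IsTest D ψ) (j : Fin n) :
    ∫ z, f z * dbar j ψ z = - ∫ z, dbar j f z * ψ z := by
  have hf' : ∀ v : E n, ContinuousOn (fun z => fderiv ℝ f z v) D := fun v =>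
    (hf.continuousOn_fderiv_of_isOpen hD le_rfl).clm_apply continuousOn_const
  have i1 := integrable_fderiv_mul₁ hD hf.continuousOn h (Pi.single j 1)
  have i2 := integrable_fderiv_mul₁ hD hf.continuousOn h (Pi.single j I)
  have i3 := integrable_contOn_mul_test hD (hf' (Pi.single j 1)) h
  have i4 := integrable_contOn_mul_test hD (hf' (Pi.single j I)) h
  have e1 : (fun z => f z * dbar j ψ z) = fun z => (2 : ℂ)⁻¹ *
      (f z * fderiv ℝ ψ z (Pi.single j 1)) + (2 : ℂ)⁻¹ * I *
      (f z * fderiv ℝ ψ z (Pi.single j I)) := by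
    funext z; unfold dbar; ring
  have e2 : (fun z => dbar j f z * ψ z) = fun z => (2 : ℂ)⁻¹ *
      (fderiv ℝ f z (Pi.single j 1) * ψ z) + (2 : ℂ)⁻¹ * I *
      (fderiv ℝ f z (Pi.single j I) * ψ z) := by
    funext z; unfold dbar; ring
  rw [e1, e2, integral_add (i1.const_mul _) (i2.const_mul _),
    integral_add (i3.const_mul _) (i4.const_mul _), integral_const_mul, integral_const_mul,
    integral_const_mul, integral_const_mul, integral_fderiv_mul hD hf h,
    integral_fderiv_mul hD hf h]
  ring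

/-- integration by parts for `∂/∂z_j` -/
theorem integral_mul_dz (hD : IsOpen D) {f : E n → ℂ} (hf : ContDiffOn ℝ 1 f D)
    (h : IsTest D ψ) (j : Fin n) :
    ∫ z, f z * dz j ψ z = - ∫ z, dz j f z * ψ z := by
  have hf' : ∀ v : E n, ContinuousOn (fun z => fderiv ℝ f z v) D := fun v =>
    (hf.continuousOn_fderiv_of_isOpen hD le_rfl).clm_apply continuousOn_const
  have i1 := integrable_fderiv_mul₁ hD hf.continuousOn h (Pi.single j 1)
  have i2 := integrable_fderiv_mul₁ hD hf.continuousOn h (Pi.single j I)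
  have i3 := integrable_contOn_mul_test hD (hf' (Pi.single j 1)) h
  have i4 := integrable_contOn_mul_test hD (hf' (Pi.single j I)) h
  have e1 : (fun z => f z * dz j ψ z) = fun z => (2 : ℂ)⁻¹ *
      (f z * fderiv ℝ ψ z (Pi.single j 1)) + (-((2 : ℂ)⁻¹ * I)) *
      (f z * fderiv ℝ ψ z (Pi.single j I)) := by
    funext z; unfold dz; ring
  have e2 : (fun z => dz j f z * ψ z) = fun z => (2 : ℂ)⁻¹ *
      (fderiv ℝ f z (Pi.single j 1) * ψ z) + (-((2 : ℂ)⁻¹ * I)) *
      (fderiv ℝ f z (Pi.single j I) * ψ z) := by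
    funext z; unfold dz; ring
  rw [e1, e2, integral_add (i1.const_mul _) (i2.const_mul _),
    integral_add (i3.const_mul _) (i4.const_mul _), integral_const_mul, integral_const_mul,
    integral_const_mul, integral_const_mul, integral_fderiv_mul hD hf h,
    integral_fderiv_mul hD hf h]
  ring

theorem integral_dbar (h : IsTest D ψ) (j : Fin n) : ∫ z, dbar j ψ z = 0 := by
  have := integral_mul_dbar (D := univ) isOpen_univ (f := fun _ => (1 : ℂ)) contDiffOn_const
    (h.mono (subset_univ _)) j
  simpa [dbar_const] using this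

theorem integral_dz (h : IsTest D ψ) (j : Fin n) : ∫ z, dz j ψ z = 0 := by
  have := integral_mul_dz (D := univ) isOpen_univ (f := fun _ => (1 : ℂ)) contDiffOn_const
    (h.mono (subset_univ _)) j
  simpa [dz_const] using this

end Pool.Agent.DK
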