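import Mathlib

/-!
# Density of `A^∞` in `A^k` (MP_d7b937_an): common definitions, interface of part S
-/

set_option autoImplicit false

namespace Pool.Agent.DK

open MeasureTheory Complex Set Metric
open scoped ContDiff

/-- `C^n` (sup norm) -/
abbrev E (n : ℕ) := Fin n → ℂ

/-- Euclidean square norm -/
noncomputable def nsq {n : ℕ} (z : E n) : ℝ := ∑ j, ‖z j‖ ^ 2

/-- `∂f/∂z̄_j` -/
noncomputable def dbar {n : ℕ} (j : Fin n) (f : E n → ℂ) (z : E n) : ℂ :=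
  (fderiv ℝ f z (Pi.single j 1) + I * fderiv ℝ f z (Pi.single j I)) / 2

/-- `∂f/∂z_j` -/
noncomputable def dz {n : ℕ} (j : Fin n) (f : E n → ℂ) (z : E n) : ℂ :=
  (fderiv ℝ f z (Pi.single j 1) - I * fderiv ℝ f z (Pi.single j I)) / 2

/-- a real function seen as a complex function -/
noncomputable def cx {n : ℕ} (f : E n → ℝ) (z : E n) : ℂ := (f z : ℂ)

/-- the complex linear part of the differential of a real function -/
noncomputable def dl {n : ℕ} (f : E n → ℝ) (z w : E n) : ℂ :=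
  ((fderiv ℝ f z w : ℂ) - I * (fderiv ℝ f z (I • w) : ℂ)) / 2

/-- the Levi form `∑ f_{j k̄} w_j w̄_k` of a real function -/
noncomputable def Lv {n : ℕ} (f : E n → ℝ) (z w : E n) : ℝ :=
  (iteratedFDeriv ℝ 2 f z ![w, w] + iteratedFDeriv ℝ 2 f z ![I • w, I • w]) / 4

/-- normalised defining function of a smooth pseudoconvex domain `{ρ < 0}` -/
structure Nice (n : ℕ) (ρ : E n → ℝ) (κ₀ : ℝ) : Prop where
  smooth : ContDiff ℝ ∞ ρ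
  cpt : HasCompactSupport (fun z => 1 - ρ z)
  pos : 0 < κ₀
  lt_one : κ₀ < 1
  reg : ∀ p, |ρ p| < κ₀ → fderiv ℝ ρ p ≠ 0
  levi : ∀ p, ρ p = 0 → ∀ w : E n, fderiv ℝ ρ p w = 0 → fderiv ℝ ρ p (I • w) = 0 →
    0 ≤ iteratedFDeriv ℝ 2 ρ p ![w, w] + iteratedFDeriv ℝ 2 ρ p ![I • w, I • w]

/-- NICE: reduction of the hypotheses of the problem to a normalised defining function -/
def NiceStmt : Prop :=
  ∀ (n : ℕ), 1 ≤ n → ∀ (ρ : E n → ℝ), ContDiff ℝ ∞ ρ →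
    Bornology.IsBounded {z | ρ z < 0} →
    (∀ p, ρ p = 0 → fderiv ℝ ρ p ≠ 0) →
    (∀ p, ρ p = 0 → ∀ w : E n, fderiv ℝ ρ p w = 0 → fderiv ℝ ρ p (I • w) = 0 →
      0 ≤ iteratedFDeriv ℝ 2 ρ p ![w, w] + iteratedFDeriv ℝ 2 ρ p ![I • w, I • w]) →
    ∃ (ρ' : E n → ℝ) (κ₀ : ℝ) (U : Set (E n)), Nice n ρ' κ₀ ∧ IsOpen U ∧
      closure {z | ρ z < 0} ⊆ U ∧ (∀ z ∈ U, ρ' z = ρ z) ∧ {z | ρ' z < κ₀} ⊆ U ∧
      {z | ρ' z < 0} = {z | ρ z < 0}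

/-- S: interface of part S.  If `F` is of class `C^k` (and `C^1`) on the thickening
`{ρ < κ}` and `|∂̄F| ≤ κ^M` there, then there is a smooth function `g`, holomorphic on
`{ρ < 0}`, whose derivatives of order `≤ k` are controlled by the local values of the
derivatives of `F`. -/
def SStmt : Prop :=
  ∀ (n : ℕ), 1 ≤ n → ∀ (ρ : E n → ℝ) (κ₀ : ℝ), Nice n ρ κ₀ → ∀ k : ℕ,
    ∃ (M : ℕ) (κ₁ c : ℝ), 0 < κ₁ ∧ κ₁ ≤ κ₀ ∧ 0 < c ∧
      ∀ κ : ℝ, 0 < κ → κ ≤ κ₁ →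
        (∀ x, ρ x < 0 → ball x (c * κ) ⊆ {z | ρ z < κ}) ∧
        ∀ F : E n → ℂ, ContDiffOn ℝ (max 1 k : ℕ) F {z | ρ z < κ} →
          (∀ z, ρ z < κ → ∀ j, ‖dbar j F z‖ ≤ κ ^ M) →
          ∃ g : E n → ℂ, ContDiff ℝ ∞ g ∧ DifferentiableOn ℂ g {z | ρ z < 0} ∧
            ∀ j : ℕ, j ≤ k → ∀ x, ρ x < 0 → ∀ (A : E n [×j]→L[ℝ] ℂ) (η : ℝ),
              (∀ y ∈ ball x (c * κ), ‖iteratedFDeriv ℝ j F y - A‖ ≤ η) →
              ‖iteratedFDeriv ℝ j g x - A‖ ≤ η + κ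

end Pool.Agent.DK
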