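import Pool.Agent.Helper14_DK.Stmts

/-! Auxiliary facts for FIN: a convergent series, dilation of kernels. -/

set_option autoImplicit false

namespace Pool.Agent.DK.H14

open MeasureTheory Complex Set Metric Filter
open scoped ContDiff Topology

/-- the super exponentially convergent series -/
theorem summable_gauss (a : ℝ) (ha : 0 < a) :
    Summable (fun m : ℕ => a ^ m * Real.exp (-((m : ℝ) ^ 2 / 8))) := by
  have h1 : Summable (fun m : ℕ => Real.exp (2 * (Real.log a + 1) ^ 2) * Real.exp (-(m : ℝ))) :=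
    Real.summable_exp_neg_nat.mul_left _
  refine h1.of_nonneg_of_le (fun m => by positivity) fun m => ?_
  have e : a ^ m = Real.exp (m * Real.log a) := by
    rw [mul_comm, Real.exp_mul, Real.exp_log ha, Real.rpow_natCast]
  rw [e, ← Real.exp_add, ← Real.exp_add]
  refine Real.exp_le_exp.2 ?_
  nlinarith [sq_nonneg ((m : ℝ) / 4 - (Real.log a + 1)), sq_nonneg ((m : ℝ) - 4 * (Real.log a + 1))]

theorem scl_cx {n : ℕ} (δ : ℝ) (φ : E n → ℝ) :
    scl δ (cx φ) = cx (fun y => (δ⁻¹) ^ (2 * n) * φ (δ⁻¹ • y)) := by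
  funext y
  simp [scl, cx]

theorem finrank_E (n : ℕ) : Module.finrank ℝ (E n) = 2 * n := by
  rw [Module.finrank_pi_fintype]
  simp [mul_comm]

theorem integral_dil {n : ℕ} (φ : E n → ℝ) (δ : ℝ) (hδ : 0 < δ) :
    ∫ y, (δ⁻¹) ^ (2 * n) * φ (δ⁻¹ • y) = ∫ y, φ y := by
  rw [integral_const_mul, Measure.integral_comp_smul]
  rw [finrank_E]
  have : |((δ⁻¹ : ℝ) ^ (2 * n))⁻¹| = ((δ⁻¹) ^ (2 * n))⁻¹ := abs_of_pos (by positivity)
  rw [this, smul_eq_mul, ← mul_assoc, mul_inv_cancel₀ (by positivity), one_mul]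

theorem contDiff_dil {n : ℕ} {φ : E n → ℝ} (hφ : ContDiff ℝ ∞ φ) (δ : ℝ) :
    ContDiff ℝ ∞ (fun y : E n => (δ⁻¹) ^ (2 * n) * φ (δ⁻¹ • y)) :=
  contDiff_const.mul (hφ.comp (contDiff_const_smul δ⁻¹))

end Pool.Agent.DK.H14
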