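import Pool.Agent.Helper14_DK.Fin1

/-! FIN: the interface statement of part S from its modules. -/

set_option autoImplicit false

namespace Pool.Agent.DK.H14

open MeasureTheory Complex Set Metric Filter
open scoped ContDiff Topology

variable {n : ℕ}

theorem continuous_dbar {F : E n → ℂ} (hF : ContDiff ℝ 1 F) (j : Fin n) :
    Continuous (dbar j F) := by
  have h := hF.continuous_fderiv (by norm_num)
  unfold dbar
  exact (((h.clm_apply continuous_const).add (continuous_const.mul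
    (h.clm_apply continuous_const))).div_const 2)

theorem compact_dbar {F : E n → ℂ} (hF : HasCompactSupport F) (j : Fin n) :
    HasCompactSupport (dbar j F) := by
  refine HasCompactSupport.intro' hF (isClosed_tsupport _) fun z hz => ?_
  have h' : z ∉ tsupport (fderiv ℝ F) := fun h' => hz (tsupport_fderiv_subset ℝ h')
  simp [dbar, image_eq_zero_of_notMem_tsupport h']

/-- the `∂̄` of a `C^1` function, cut off outside of `D` -/
noncomputable def cutdb (D : Set (E n)) (F : E n → ℂ) (j : Fin n) : E n → ℂ :=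
  D.indicator (dbar j F)

theorem memLp_cutdb {D : Set (E n)} (hD : IsOpen D) {F : E n → ℂ} (hF : ContDiff ℝ 1 F)
    (hc : HasCompactSupport F) (j : Fin n) : MemLp (cutdb D F j) 2 volume :=
  ((continuous_dbar hF j).memLp_of_hasCompactSupport (compact_dbar hc j)).indicator
    hD.measurableSet

theorem wdb_cutdb {D : Set (E n)} (hD : IsOpen D) {F : E n → ℂ} (hF : ContDiff ℝ 1 F) :
    WDb D F (cutdb D F) := by
  intro j ψ hψ
  rw [integral_mul_dbar hD hF.contDiffOn hψ]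
  congr 1
  refine integral_congr_ae (Eventually.of_forall fun z => ?_)
  by_cases hz : z ∈ D
  · simp [cutdb, hz]
  · simp [hψ.zero_of_notMem hz]

/-- the square norm of the cut off `∂̄F` -/
theorem norm_cutdb {D : Set (E n)} {F : E n → ℂ} {s v : ℝ} (hs : 0 ≤ s)
    (hb : ∀ z ∈ D, ∀ j, ‖dbar j F z‖ ≤ s) (hDm : MeasurableSet D)
    (hv : volume D ≤ ENNReal.ofReal v) (hv0 : 0 ≤ v) (hF : ContDiff ℝ 1 F)
    (hc : HasCompactSupport F) :
    ∫ z, ∑ j, ‖cutdb D F j z‖ ^ 2 ≤ n * v * s ^ 2 := by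
  have h1 : ∀ z, ∑ j, ‖cutdb D F j z‖ ^ 2 = D.indicator (fun z => ∑ j, ‖dbar j F z‖ ^ 2) z := by
    intro z
    by_cases hz : z ∈ D
    · simp [cutdb, hz]
    · simp [cutdb, hz]
  simp_rw [h1]
  rw [integral_indicator hDm]
  have hfin : volume D < ⊤ := lt_of_le_of_lt hv ENNReal.ofReal_lt_top
  have h2 : ∫ z in D, ∑ j, ‖dbar j F z‖ ^ 2 ≤ ∫ z in D, (n : ℝ) * s ^ 2 := by
    refine setIntegral_mono_on ?_ ?_ hDm fun z hz => ?_
    · have hcont : Continuous (fun z => ∑ j, ‖dbar j F z‖ ^ 2) :=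
        continuous_finset_sum _ fun j _ => (continuous_dbar hF j).norm.pow 2
      have hcs : HasCompactSupport (fun z => ∑ j, ‖dbar j F z‖ ^ 2) := by
        refine HasCompactSupport.intro' hc (isClosed_tsupport _) fun z hz => ?_
        refine Finset.sum_eq_zero fun j _ => ?_
        have h' : z ∉ tsupport (fderiv ℝ F) := fun h' => hz (tsupport_fderiv_subset ℝ h')
        simp [dbar, image_eq_zero_of_notMem_tsupport h']
      exact (hcont.integrable_of_hasCompactSupport hcs).integrableOn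
    · exact integrableOn_const (by exact hfin.ne)
    · calc ∑ j, ‖dbar j F z‖ ^ 2 ≤ ∑ _j : Fin n, s ^ 2 := by
            refine Finset.sum_le_sum fun j _ => ?_
            have := hb z hz j
            have h0 := norm_nonneg (dbar j F z)
            gcongr
        _ = n * s ^ 2 := by simp
  refine h2.trans ?_
  rw [setIntegral_const, smul_eq_mul]
  have h3 : volume.real D ≤ v := by
    unfold Measure.real
    exact ENNReal.toReal_le_of_le_ofReal hv0 hv
  nlinarith [mul_nonneg (Nat.cast_nonneg n : (0 : ℝ) ≤ n) (sq_nonneg s)]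

/-- bounded sublevel sets -/
theorem bounded_sub {ρ : E n → ℝ} {κ₀ : ℝ} (hN : Nice n ρ κ₀) :
    Bornology.IsBounded {z | ρ z < κ₀} := by
  refine hN.cpt.isBounded.subset fun z hz => subset_tsupport _ ?_
  have h1 : ρ z < κ₀ := hz
  have h2 := hN.lt_one
  simp only [Function.mem_support, ne_eq]
  intro h
  linarith

theorem sqrt_le_of {x y : ℝ} (hy : 0 ≤ y) (h : x ≤ y ^ 2) : Real.sqrt x ≤ y := by
  rw [← Real.sqrt_sq hy]; exact Real.sqrt_le_sqrt h

/-- FIN -/
theorem fin (h1 : SeqStmt) (h2 : KerStmt) (h3 : EstStmt) (h4 : SumStmt) (h5 : AvgStmt)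
    (h6 : CutStmt) (h7 : BndStmt) : SStmt := by
  intro n hn ρ κ₀ hN k
  obtain ⟨θ, C, κ₁, hθ0, hθ1, hC, hκ1, hκ10, hseq⟩ := h1 n hn ρ κ₀ hN
  obtain ⟨φ, V, hK⟩ := h2 n hn θ hθ0 hθ1
  obtain ⟨c, B, hc0, hc1, hB, hball, hest⟩ := h3 n hn ρ κ₀ hN θ φ V hθ0 hθ1 hK
  have hκ01 : κ₀ < 1 := hN.lt_one
  have hκ0 : 0 < κ₀ := hN.pos
  -- volume
  obtain ⟨v, hv0, hv⟩ : ∃ v : ℝ, 0 ≤ v ∧ volume {z | ρ z < κ₀} ≤ ENNReal.ofReal v := by
    have := (bounded_sub hN).measure_lt_top (μ := (volume : Measure (E n)))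
    exact ⟨(volume {z | ρ z < κ₀}).toReal, ENNReal.toReal_nonneg, by
      rw [ENNReal.ofReal_toReal this.ne]⟩
  -- constants
  set a : ℕ → ℝ := fun l => ((θ⁻¹) ^ (2 * n + l)) with ha
  have ha0 : ∀ l, 0 < a l := fun l => by positivity
  set S : ℕ → ℝ := fun l => ∑' m : ℕ, (a l) ^ m * Real.exp (-((m : ℝ) ^ 2 / 8)) with hS
  have hS0 : ∀ l, 0 ≤ S l := fun l => tsum_nonneg fun m => by positivity
  set Q : ℝ := 2 ^ (2 * n + k) * (2 * Real.exp (C / 2)) * Real.sqrt (n * v) *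
    (∑ l ∈ Finset.range (k + 1), B l * S l) + 1 with hQ
  have hsum0 : 0 ≤ ∑ l ∈ Finset.range (k + 1), B l * S l :=
    Finset.sum_nonneg fun l _ => mul_nonneg (hB l) (hS0 l)
  have hQ1 : 1 ≤ Q := by
    have : 0 ≤ 2 ^ (2 * n + k) * (2 * Real.exp (C / 2)) * Real.sqrt (n * v) *
      (∑ l ∈ Finset.range (k + 1), B l * S l) := by positivity
    linarith
  refine ⟨2 * n + k + 2, min κ₁ (1 / Q), c / 2, lt_min hκ1 (by positivity),
    (min_le_left _ _).trans hκ10, by positivity, fun κ hκ hκle => ⟨?_, ?_⟩⟩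
  · intro x hx y hy
    have h := hball (κ / 2) x (by positivity) (by linarith)
    have : y ∈ closedBall x (c * (κ / 2)) := by
      rw [mem_closedBall]
      rw [mem_ball] at hy
      have : c / 2 * κ = c * (κ / 2) := by ring
      linarith
    have h' : ρ y < κ / 2 := h this
    show ρ y < κ
    linarith
  intro F hF hdb
  have hκκ1 : κ ≤ κ₁ := hκle.trans (min_le_left _ _)
  have hκQ : κ ≤ 1 / Q := hκle.trans (min_le_right _ _)
  have hκκ0 : κ ≤ κ₀ := hκκ1.trans hκ10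
  obtain ⟨F', hF', hF'c, hFF'⟩ := h6 n hn ρ κ₀ hN κ (max 1 k) F hκ hκκ0 hF
  set κ' : ℝ := κ / 2 with hκ'
  have hκ'0 : 0 < κ' := by positivity
  have hκ'1 : κ' ≤ κ₁ := by rw [hκ']; linarith
  have hκ'2 : κ' ≤ κ₀ := hκ'1.trans hκ10
  set D : Set (E n) := {z | ρ z < κ'} with hD
  have hDo : IsOpen D := isOpen_lt hN.smooth.continuous continuous_const
  have hF'1 : ContDiff ℝ 1 F' := hF'.of_le (by exact_mod_cast le_max_left _ _)
  have hmF' : MemLp F' 2 volume := hF'1.continuous.memLp_of_hasCompactSupport hF'c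
  have hmα : ∀ j, MemLp (cutdb D F' j) 2 volume := memLp_cutdb hDo hF'1 hF'c
  obtain ⟨Fm, α, u, hF0, hα0, hFs, hFL, hαL, huL, hw, hub, hαb⟩ :=
    hseq κ' hκ'0 hκ'1 F' (cutdb D F') hmF' hmα (wdb_cutdb hDo hF'1)
  set A : ℝ := Real.sqrt (∫ z, ∑ j, ‖cutdb D F' j z‖ ^ 2) with hA
  have hA0 : 0 ≤ A := Real.sqrt_nonneg _
  have hAle : A ≤ Real.sqrt (n * v) * κ ^ (2 * n + k + 2) := by
    refine sqrt_le_of (by positivity) ?_
    rw [mul_pow, Real.sq_sqrt (by positivity)]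
    refine norm_cutdb (by positivity) ?_ hDo.measurableSet ?_ hv0 hF'1 hF'c
    · intro z hz j
      have e : F' =ᶠ[𝓝 z] F := by
        filter_upwards [hDo.mem_nhds hz] with y hy
        exact hFF' y hy
      rw [dbar_congr e]
      have : ρ z < κ' := hz
      exact hdb z (by linarith) j
    · refine (measure_mono ?_).trans hv
      intro z hz
      have : ρ z < κ' := hz
      exact lt_of_lt_of_le this hκ'2
  have hAsq : A ^ 2 = ∫ z, ∑ j, ‖cutdb D F' j z‖ ^ 2 :=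
    Real.sq_sqrt (integral_nonneg fun z => Finset.sum_nonneg fun j _ => by positivity)
  have hexp : ∀ m : ℕ, Real.exp (C - (m : ℝ) ^ 2 / 4) * (∫ z, ∑ j, ‖cutdb D F' j z‖ ^ 2) =
      (Real.exp (C / 2) * Real.exp (-((m : ℝ) ^ 2 / 8)) * A) ^ 2 := by
    intro m
    rw [← hAsq, mul_pow, ← Real.exp_add, ← Real.exp_nat_mul]
    congr 2
    push_cast; ring
  have hub' : ∀ m, Real.sqrt (∫ z, ‖u m z‖ ^ 2) ≤
      Real.exp (C / 2) * Real.exp (-((m : ℝ) ^ 2 / 8)) * A := fun m =>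
    sqrt_le_of (by positivity) ((hub m).trans (hexp m).le)
  have hαb' : ∀ m, Real.sqrt (∫ z, ∑ j, ‖α m j z‖ ^ 2) ≤
      Real.exp (C / 2) * Real.exp (-((m : ℝ) ^ 2 / 8)) * A := fun m =>
    sqrt_le_of (by positivity) ((hαb m).trans (hexp m).le)
  set km : ℕ → ℝ := fun m => θ ^ m * κ' with hkm
  have hkm0 : ∀ m, 0 < km m := fun m => by positivity
  have hkmle : ∀ m, km m ≤ κ₀ := fun m => by
    have : θ ^ m ≤ 1 := pow_le_one₀ hθ0.le hθ1.le
    calc km m = θ ^ m * κ' := rfl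
      _ ≤ 1 * κ' := by gcongr
      _ ≤ κ₀ := by linarith
  set G : ℕ → E n → ℂ := fun m => conv (Fm m) (scl (c * km m) (cx φ)) with hG
  have hδ : ∀ m, 0 < c * km m ∧ c * km m ≤ 1 := fun m => by
    refine ⟨mul_pos hc0 (hkm0 m), ?_⟩
    have := hkmle m
    have := hkm0 m
    nlinarith
  have hφcx0 : ∀ y, 1 ≤ ‖y‖ → cx φ y = 0 := fun y hy => by simp [cx, hK.supp y hy]
  obtain ⟨_, _, hbnd⟩ := h7 n (cx φ) (contDiff_cx hK.smφ) hφcx0 0
  have hGs : ∀ m, ContDiff ℝ ∞ (G m) := fun m => (hbnd (Fm m) (hFL m) _ (hδ m).1 (hδ m).2).1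
  -- the bounds
  set ε : ℕ → ℕ → ℝ := fun m l => B l * ((km m)⁻¹) ^ (2 * n + l) *
    (2 * Real.exp (C / 2) * Real.exp (-((m : ℝ) ^ 2 / 8)) * A) with hε
  have hE : ∀ m, _ := fun m => hest (km m) (Fm m) (u m) (α m) (hkm0 m) (hkmle m) (hFL m)
    (huL m) (hαL m) (hw m)
  have hbd1 : ∀ (m l : ℕ) (z : E n), ρ z < θ ^ m * κ' / 2 →
      ‖iteratedFDeriv ℝ l (fun y => G (m + 1) y - G m y) z‖ ≤ ε m l := by
    intro m l z hz
    have h := (hE m).1 l z hz
    have e : (fun y => G (m + 1) y - G m y) = fun y =>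
        conv (fun w => Fm m w - u m w) (scl (θ * (c * km m)) (cx φ)) y -
          conv (Fm m) (scl (c * km m) (cx φ)) y := by
      have e1 : Fm (m + 1) = fun w => Fm m w - u m w := funext (hFs m)
      have e2 : c * km (m + 1) = θ * (c * km m) := by
        simp only [hkm]; rw [pow_succ]; ring
      simp only [hG]
      rw [e1, e2]
    rw [e]
    refine h.trans ?_
    have h1 := hub' m
    have h2 := hαb' m
    have h3 : 0 ≤ B l * ((km m)⁻¹) ^ (2 * n + l) := mul_nonneg (hB l) (by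
      have := hkm0 m; positivity)
    refine mul_le_mul_of_nonneg_left ?_ h3
    linarith
  have hkinv : ∀ m N : ℕ, ((km m)⁻¹) ^ N = ((κ')⁻¹) ^ N * ((θ⁻¹) ^ N) ^ m := by
    intro m N
    simp only [hkm]
    rw [mul_inv, mul_pow, ← inv_pow, ← pow_mul, ← pow_mul, mul_comm N m]
    ring
  have hsumm : ∀ N l : ℕ, Summable (fun m : ℕ => ((θ ^ m * κ')⁻¹) ^ N * ε m l) := by
    intro N l
    have h := (summable_gauss ((θ⁻¹) ^ (N + (2 * n + l))) (by positivity)).mul_left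
      (((κ')⁻¹) ^ (N + (2 * n + l)) * (B l * (2 * Real.exp (C / 2) * A)))
    refine h.congr fun m => ?_
    have e : ((θ ^ m * κ')⁻¹) ^ N * ((km m)⁻¹) ^ (2 * n + l) =
        ((κ')⁻¹) ^ (N + (2 * n + l)) * ((θ⁻¹) ^ (N + (2 * n + l))) ^ m := by
      rw [← hkinv, pow_add _ N (2 * n + l)]
    simp only [hε]
    calc ((κ')⁻¹) ^ (N + (2 * n + l)) * (B l * (2 * Real.exp (C / 2) * A)) *
          (((θ⁻¹) ^ (N + (2 * n + l))) ^ m * Real.exp (-((m : ℝ) ^ 2 / 8)))
        = (((κ')⁻¹) ^ (N + (2 * n + l)) * ((θ⁻¹) ^ (N + (2 * n + l))) ^ m) *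
          (B l * (2 * Real.exp (C / 2) * Real.exp (-((m : ℝ) ^ 2 / 8)) * A)) := by ring
      _ = _ := by rw [← e]; ring
  have hlim : ∀ (i : Fin n) (z : E n), ρ z < 0 →
      Tendsto (fun m => dbar i (G m) z) atTop (𝓝 0) := by
    intro i z hz
    have hs := (hsumm 0 0).tendsto_atTop_zero
    simp only [pow_zero, one_mul] at hs
    refine squeeze_zero_norm (fun m => ?_) hs
    have h := (hE m).2 i z (by have := hkm0 m; linarith)
    refine h.trans ?_
    have h2 := hαb' m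
    have h3 : 0 ≤ B 0 * ((km m)⁻¹) ^ (2 * n) := mul_nonneg (hB 0) (by
      have := hkm0 m; positivity)
    have h4 : 0 ≤ Real.exp (C / 2) * Real.exp (-((m : ℝ) ^ 2 / 8)) * A := by positivity
    simp only [hε, add_zero]
    refine mul_le_mul_of_nonneg_left ?_ h3
    linarith
  have hfin := h4 n hn ρ κ₀ hN κ' θ hκ'0 hκ'2 hθ0 hθ1 G ε hGs hbd1 hsumm hlim
  obtain ⟨g, hg1, hg2, hg3⟩ := hfin
  refine ⟨g, hg1, hg2, ?_⟩
  intro j hj x hx A' η hA'
  have htsum : ∑' m, ε m j ≤ κ := by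
    have e : ∀ m, ε m j = (((κ')⁻¹) ^ (2 * n + j) * (B j * (2 * Real.exp (C / 2) * A))) *
        ((a j) ^ m * Real.exp (-((m : ℝ) ^ 2 / 8))) := by
      intro m
      simp only [hε, hkinv, ha]; ring
    rw [tsum_congr e, tsum_mul_left]
    have hSj : ∑' m : ℕ, (a j) ^ m * Real.exp (-((m : ℝ) ^ 2 / 8)) = S j := rfl
    rw [hSj]
    have hBS : B j * S j ≤ ∑ l ∈ Finset.range (k + 1), B l * S l :=
      Finset.single_le_sum (f := fun l => B l * S l)
        (fun l _ => mul_nonneg (hB l) (hS0 l)) (Finset.mem_range.2 (by omega))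
    have hκ1' : κ ≤ 1 := by linarith
    have hpow : ((κ')⁻¹) ^ (2 * n + j) ≤ 2 ^ (2 * n + k) * (κ⁻¹) ^ (2 * n + k) := by
      have e2 : (κ')⁻¹ = 2 * κ⁻¹ := by rw [hκ']; field_simp
      rw [← mul_pow, e2]
      refine pow_le_pow_right₀ ?_ (by omega)
      have : 1 ≤ κ⁻¹ := by rw [one_le_inv₀ hκ]; exact hκ1'
      linarith
    have hκpow : (κ⁻¹) ^ (2 * n + k) * κ ^ (2 * n + k + 2) = κ ^ 2 := by
      rw [pow_add κ (2 * n + k) 2, ← mul_assoc, ← mul_pow, inv_mul_cancel₀ hκ.ne', one_pow, one_mul]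
    calc ((κ')⁻¹) ^ (2 * n + j) * (B j * (2 * Real.exp (C / 2) * A)) * S j
        = ((κ')⁻¹) ^ (2 * n + j) * ((2 * Real.exp (C / 2)) * A * (B j * S j)) := by ring
      _ ≤ (2 ^ (2 * n + k) * (κ⁻¹) ^ (2 * n + k)) * ((2 * Real.exp (C / 2)) *
          (Real.sqrt (n * v) * κ ^ (2 * n + k + 2)) *
            (∑ l ∈ Finset.range (k + 1), B l * S l)) := by
          have h0 : 0 ≤ B j * S j := mul_nonneg (hB j) (hS0 j)
          gcongr
      _ = (2 ^ (2 * n + k) * (2 * Real.exp (C / 2)) * Real.sqrt (n * v) *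
            (∑ l ∈ Finset.range (k + 1), B l * S l)) *
            ((κ⁻¹) ^ (2 * n + k) * κ ^ (2 * n + k + 2)) := by ring
      _ = (Q - 1) * κ ^ 2 := by rw [hκpow, hQ]; ring
      _ ≤ κ := by
          have hQκ : Q * κ ≤ 1 := by
            rw [le_div_iff₀ (by linarith)] at hκQ; linarith
          nlinarith [mul_nonneg hκ.le hκ.le]
  -- averages
  have hAvg : ‖iteratedFDeriv ℝ j (G 0) x - A'‖ ≤ η := by
    set δ : ℝ := c * km 0 with hδdef
    have hδ0 : 0 < δ := (hδ 0).1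
    have hG0 : G 0 = conv F' (cx (fun y => (δ⁻¹) ^ (2 * n) * φ (δ⁻¹ • y))) := by
      simp only [hG]
      rw [hF0, scl_cx]
    rw [hG0]
    refine h5 n (max 1 k) F' hF' hF'c (fun y => (δ⁻¹) ^ (2 * n) * φ (δ⁻¹ • y)) δ hδ0
      (contDiff_dil hK.smφ δ) ?_ ?_ ?_ j (hj.trans (le_max_right _ _)) x A' η ?_
    · intro y
      exact mul_nonneg (by positivity) (hK.nn _)
    · rw [integral_dil φ δ hδ0, hK.int]
    · intro y hy
      have : 1 ≤ ‖δ⁻¹ • y‖ := by
        rw [norm_smul, Real.norm_of_nonneg (by positivity)]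
        rw [le_inv_mul_iff₀ hδ0]; linarith
      show _ * φ (δ⁻¹ • y) = 0
      rw [hK.supp _ this, mul_zero]
    · intro y hy
      have hδ' : δ = c / 2 * κ := by
        rw [hδdef]; simp only [hkm, hκ']; ring
      have hyD : y ∈ D := by
        have h := hball κ' x hκ'0 (by linarith)
        refine h ?_
        have : c * κ' = δ := by rw [hδ', hκ']; ring
        rw [this]
        exact ball_subset_closedBall hy
      have e : F' =ᶠ[𝓝 y] F := by
        filter_upwards [hDo.mem_nhds hyD] with w hw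
        exact hFF' w hw
      rw [(Filter.EventuallyEq.iteratedFDeriv (𝕜 := ℝ) e j).eq_of_nhds]
      exact hA' y (by rw [← hδ']; exact hy)
  calc ‖iteratedFDeriv ℝ j g x - A'‖
      = ‖(iteratedFDeriv ℝ j g x - iteratedFDeriv ℝ j (G 0) x) +
          (iteratedFDeriv ℝ j (G 0) x - A')‖ := by congr 1; abel
    _ ≤ ‖iteratedFDeriv ℝ j g x - iteratedFDeriv ℝ j (G 0) x‖ +
          ‖iteratedFDeriv ℝ j (G 0) x - A'‖ := norm_add_le _ _
    _ ≤ κ + η := add_le_add ((hg3 j x hx).trans htsum) hAvg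
    _ = η + κ := add_comm _ _

end Pool.Agent.DK.H14
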