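import Pool.Agent.Helper14_DK.Basic

/-!
# Statements of the modules of parts H (Hoermander) and S (approximation)
-/

set_option autoImplicit false

namespace Pool.Agent.DK

open MeasureTheory Complex Set Metric Filter
open scoped ContDiff Topology

/-! ### common definitions -/

/-- convolution -/
noncomputable def conv {n : ℕ} (f g : E n → ℂ) (z : E n) : ℂ := ∫ w, f w * g (z - w)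

/-- `∂̄u = α` weakly on `D` -/
def WDb {n : ℕ} (D : Set (E n)) (u : E n → ℂ) (α : Fin n → E n → ℂ) : Prop :=
  ∀ (j : Fin n) (ψ : E n → ℂ), IsTest D ψ → ∫ z, u z * dbar j ψ z = - ∫ z, α j z * ψ z

/-- `∂̄α = 0` weakly on `D` -/
def WCl {n : ℕ} (D : Set (E n)) (α : Fin n → E n → ℂ) : Prop :=
  ∀ (j k : Fin n) (ψ : E n → ℂ), IsTest D ψ →
    ∫ z, α j z * dbar k ψ z = ∫ z, α k z * dbar j ψ z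

/-- squared weighted norm of a form -/
noncomputable def N2 {n : ℕ} (D : Set (E n)) (t : ℝ) (α : Fin n → E n → ℂ) : ℝ :=
  ∫ z in D, (∑ j, ‖α j z‖ ^ 2) * Real.exp (-(t * nsq z))

/-- squared weighted norm of a function -/
noncomputable def N2s {n : ℕ} (D : Set (E n)) (t : ℝ) (u : E n → ℂ) : ℝ :=
  ∫ z in D, ‖u z‖ ^ 2 * Real.exp (-(t * nsq z))

/-- `s` is a smooth strictly plurisubharmonic exhaustion of the open set `D` -/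
structure Exh {n : ℕ} (D : Set (E n)) (s : E n → ℝ) : Prop where
  op : IsOpen D
  sm : ContDiffOn ℝ ∞ s D
  psh : ∀ z ∈ D, ∀ w : E n, w ≠ 0 → 0 < Lv s z w
  cpt : ∀ c : ℝ, IsCompact {z | z ∈ D ∧ s z ≤ c}

/-- the package of weights and cutoff functions of Hoermander's method -/
structure Wt {n : ℕ} (D : Set (E n)) (t : ℝ) (K : Set (E n)) (Φ ψ : E n → ℝ)
    (η : ℕ → E n → ℝ) : Prop where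
  op : IsOpen D
  smΦ : ContDiffOn ℝ ∞ Φ D
  smψ : ContDiffOn ℝ ∞ ψ D
  onK : ∀ z ∈ K, Φ z = t * nsq z ∧ ψ z = 0
  dom : ∀ z ∈ D, t * nsq z + ψ z ≤ Φ z
  lev : ∀ z ∈ D, ∀ w : E n,
    (2 * (∑ j, ‖dz j (cx ψ) z‖ ^ 2) + t * Real.exp (ψ z)) * nsq w ≤ Lv Φ z w
  eta : ∀ m, IsTest D (cx (η m))
  rng : ∀ m z, 0 ≤ η m z ∧ η m z ≤ 1
  grad : ∀ m, ∀ z ∈ D, ∑ k, ‖dz k (cx (η m)) z‖ ^ 2 ≤ Real.exp (ψ z)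
  exh : ∀ z ∈ D, ∃ N : ℕ, ∀ m, N ≤ m → ∀ᶠ y in 𝓝 z, η m y = 1

/-! ### part H -/

/-- LB -/
def LbStmt : Prop := ∀ (n : ℕ) (f : E n → ℝ) (z : E n), ContDiffAt ℝ 2 f z → ∀ w : E n,
  ((Lv f z w : ℝ) : ℂ) = ∑ j, ∑ k, dbar k (dz j (cx f)) z * w j * (starRingEnd ℂ) (w k)

/-- LC: calculus of the Levi form -/
def LcStmt : Prop := ∀ (n : ℕ),
  (∀ (f g : E n → ℝ) (z w : E n), ContDiffAt ℝ 2 f z → ContDiffAt ℝ 2 g z →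
    Lv (fun y => f y + g y) z w = Lv f z w + Lv g z w ∧
    dl (fun y => f y + g y) z w = dl f z w + dl g z w) ∧
  (∀ (c : ℝ) (f : E n → ℝ) (z w : E n), ContDiffAt ℝ 2 f z →
    Lv (fun y => c * f y) z w = c * Lv f z w ∧
    dl (fun y => c * f y) z w = (c : ℂ) * dl f z w) ∧
  (∀ (h : ℝ → ℝ) (f : E n → ℝ) (z w : E n), ContDiffAt ℝ 2 f z → ContDiffAt ℝ 2 h (f z) →
    Lv (fun y => h (f y)) z w =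
      deriv h (f z) * Lv f z w + deriv (deriv h) (f z) * ‖dl f z w‖ ^ 2 ∧
    dl (fun y => h (f y)) z w = ((deriv h (f z) : ℝ) : ℂ) * dl f z w) ∧
  (∀ (p z w : E n), Lv (fun y => nsq (y - p)) z w = nsq w ∧
    dl (fun y => nsq (y - p)) z w = ∑ j, w j * (starRingEnd ℂ) ((z - p) j)) ∧
  (∀ (f : E n → ℝ) (z w : E n), DifferentiableAt ℝ f z →
    dl f z w = ∑ j, dz j (cx f) z * w j) ∧
  (∀ (f : E n → ℝ) (z w : E n), DifferentiableAt ℝ f z →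
    ‖dl f z w‖ ^ 2 ≤ (∑ j, ‖dz j (cx f) z‖ ^ 2) * nsq w)

/-- IDENT: the Kohn-Hoermander inequality -/
def IdentStmt : Prop := ∀ (n : ℕ) (D : Set (E n)) (Φ : E n → ℝ) (a : Fin n → E n → ℂ),
  IsOpen D → ContDiffOn ℝ ∞ Φ D → (∀ j, IsTest D (a j)) →
  ∫ z, Lv Φ z (fun j => a j z) * Real.exp (-Φ z) ≤
    (∫ z, ‖∑ j, (dz j (a j) z - dz j (cx Φ) z * a j z)‖ ^ 2 * Real.exp (-Φ z)) +
    (1 / 2) * ∫ z, (∑ j, ∑ k, ‖dbar k (a j) z - dbar j (a k) z‖ ^ 2) * Real.exp (-Φ z)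

/-- the curvature condition -/
def Curv {n : ℕ} (D : Set (E n)) (t : ℝ) (Φ ψ : E n → ℝ) : Prop :=
  ∀ z ∈ D, ∀ w : E n,
    (2 * (∑ j, ‖dz j (cx ψ) z‖ ^ 2) + t * Real.exp (ψ z)) * nsq w ≤ Lv Φ z w

/-- APR: a priori estimate for test forms -/
def AprStmt : Prop := ∀ (n : ℕ) (D : Set (E n)) (Φ ψ : E n → ℝ) (t : ℝ) (a : Fin n → E n → ℂ),
  IsOpen D → ContDiffOn ℝ ∞ Φ D → ContDiffOn ℝ ∞ ψ D → Curv D t Φ ψ → (∀ j, IsTest D (a j)) →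
  t * (∫ z, (∑ j, ‖a j z‖ ^ 2) * Real.exp (-(Φ z - ψ z))) ≤
    2 * (∫ z, ‖∑ j, (dz j (a j) z - dz j (cx (fun y => Φ y - ψ y)) z * a j z)‖ ^ 2 *
      Real.exp (-Φ z)) +
    (1 / 2) * ∫ z, (∑ j, ∑ k, ‖dbar k (a j) z - dbar j (a k) z‖ ^ 2) * Real.exp (-Φ z)

/-- CHI -/
def ChiStmt : Prop := ∀ B : ℕ → ℝ, ∃ χ : ℝ → ℝ, ContDiff ℝ ∞ χ ∧ (∀ x, x ≤ -2 → χ x = 0) ∧
  (∀ x, 0 ≤ χ x) ∧ (∀ x, 0 ≤ deriv χ x) ∧ (∀ x, 0 ≤ deriv (deriv χ) x) ∧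
  ∀ (k : ℕ) (x : ℝ), (k : ℝ) ≤ x → B k ≤ χ x ∧ B k ≤ deriv χ x

/-- WPK: existence of the weight package -/
def WpkStmt : Prop := ∀ (n : ℕ) (D : Set (E n)) (s : E n → ℝ), Exh D s → ∀ t : ℝ, 0 < t →
  ∀ K : Set (E n), IsCompact K → K ⊆ D →
    ∃ (Φ ψ : E n → ℝ) (η : ℕ → E n → ℝ), Wt D t K Φ ψ η

/-- MOL: mollifiers -/
def MolStmt : Prop := ∀ (n : ℕ), ∃ om : ℕ → E n → ℝ, (∀ m, ContDiff ℝ ∞ (om m)) ∧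
  (∀ m y, 0 ≤ om m y) ∧ (∀ m, ∫ y, om m y = 1) ∧
  (∀ (m : ℕ) (y : E n), 1 / ((m : ℝ) + 1) ≤ ‖y‖ → om m y = 0) ∧
  ∀ f : E n → ℂ, MemLp f 2 volume →
    (∀ m, MemLp (conv f (cx (om m))) 2 volume) ∧
    Tendsto (fun m => ∫ z, ‖conv f (cx (om m)) z - f z‖ ^ 2) atTop (𝓝 0)

/-- CNV: calculus of convolutions -/
def CnvStmt : Prop := ∀ (n : ℕ) (f g : E n → ℂ), LocallyIntegrable f volume →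
  ContDiff ℝ ∞ g → HasCompactSupport g →
    ContDiff ℝ ∞ (conv f g) ∧ (∀ j z, dbar j (conv f g) z = conv f (dbar j g) z) ∧
    (∀ j z, dz j (conv f g) z = conv f (dz j g) z)

/-- LOC: localisation of the weak equations -/
def LocStmt : Prop := ∀ (n : ℕ) (D : Set (E n)) (f : Fin n → E n → ℂ) (d η : E n → ℂ),
  IsOpen D → (∀ j ψ, IsTest D ψ → Integrable (fun z => f j z * ψ z)) →
  (∀ ψ, IsTest D ψ → Integrable (fun z => d z * ψ z)) → WCl D f →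
  (∀ v, IsTest D v → ∫ z, ∑ j, f j z * dz j v z = - ∫ z, d z * v z) → IsTest D η →
    (∀ (j k : Fin n) (v : E n → ℂ), ContDiff ℝ ∞ v → HasCompactSupport v →
      (∫ z, η z * f j z * dbar k v z) - (∫ z, η z * f k z * dbar j v z) =
        - ∫ z, (f j z * dbar k η z - f k z * dbar j η z) * v z) ∧
    (∀ v : E n → ℂ, ContDiff ℝ ∞ v → HasCompactSupport v →
      ∫ z, ∑ j, η z * f j z * dz j v z = - ∫ z, (η z * d z + ∑ j, f j z * dz j η z) * v z)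

/-- EPS: the a priori estimate for compactly supported weak forms -/
def EpsStmt : Prop := ∀ (n : ℕ) (D : Set (E n)) (Φ ψ : E n → ℝ) (t : ℝ) (K : Set (E n))
  (p : Fin n → E n → ℂ) (q : Fin n → Fin n → E n → ℂ) (d : E n → ℂ),
  IsOpen D → ContDiffOn ℝ ∞ Φ D → ContDiffOn ℝ ∞ ψ D → Curv D t Φ ψ →
  IsCompact K → K ⊆ D →
  (∀ j, MemLp (p j) 2 volume) → (∀ j k, MemLp (q j k) 2 volume) → MemLp d 2 volume →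
  (∀ j, ∀ z ∉ K, p j z = 0) → (∀ j k, ∀ z ∉ K, q j k z = 0) → (∀ z ∉ K, d z = 0) →
  (∀ (j k : Fin n) (v : E n → ℂ), ContDiff ℝ ∞ v → HasCompactSupport v →
      (∫ z, p j z * dbar k v z) - (∫ z, p k z * dbar j v z) = - ∫ z, q j k z * v z) →
  (∀ v : E n → ℂ, ContDiff ℝ ∞ v → HasCompactSupport v →
      ∫ z, ∑ j, p j z * dz j v z = - ∫ z, d z * v z) →
  t * (∫ z, (∑ j, ‖p j z‖ ^ 2) * Real.exp (-(Φ z - ψ z))) ≤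
    2 * (∫ z, ‖d z - ∑ j, dz j (cx (fun y => Φ y - ψ y)) z * p j z‖ ^ 2 * Real.exp (-Φ z)) +
    (1 / 2) * ∫ z, (∑ j, ∑ k, ‖q j k z‖ ^ 2) * Real.exp (-Φ z)

/-- KL: the key lemma, the a priori estimate for all closed weak forms in the domain of the
adjoint -/
def KlStmt : Prop := ∀ (n : ℕ) (D : Set (E n)) (t : ℝ) (K : Set (E n)) (Φ ψ : E n → ℝ)
  (η : ℕ → E n → ℝ), Wt D t K Φ ψ η → 0 < t → ∀ (f : Fin n → E n → ℂ) (h : E n → ℂ),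
  (∀ j, AEStronglyMeasurable (f j) (volume.restrict D)) →
  AEStronglyMeasurable h (volume.restrict D) →
  (∀ j, IntegrableOn (fun z => ‖f j z‖ ^ 2 * Real.exp (-(Φ z - ψ z))) D) →
  IntegrableOn (fun z => ‖h z‖ ^ 2 * Real.exp (-(Φ z - 2 * ψ z))) D →
  WCl D f →
  (∀ v, IsTest D v → ∫ z, (∑ j, f j z * dz j v z) * Real.exp (-(Φ z - ψ z)) =
    ∫ z, h z * v z * Real.exp (-(Φ z - 2 * ψ z))) →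
  t * (∫ z in D, (∑ j, ‖f j z‖ ^ 2) * Real.exp (-(Φ z - ψ z))) ≤
    4 * ∫ z in D, ‖h z‖ ^ 2 * Real.exp (-(Φ z - 2 * ψ z))

/-- ABS: the abstract duality lemma -/
def AbsStmt : Prop := ∀ (H H1 A : Type) [NormedAddCommGroup H] [InnerProductSpace ℂ H]
  [CompleteSpace H] [NormedAddCommGroup H1] [InnerProductSpace ℂ H1] [CompleteSpace H1]
  [AddCommGroup A] [Module ℂ A] (a : A →ₗ[ℂ] H) (T : A →ₗ[ℂ] H1) (N : Submodule ℂ H)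
  (g : H) (C : ℝ), 0 ≤ C → g ∈ Nᗮ →
  (∀ x : A, ∀ f ∈ Nᗮ, a x - f ∈ Nᗮᗮ → ‖f‖ ≤ C * ‖T x‖) →
  ∃ u : H1, ‖u‖ ≤ C * ‖g‖ ∧ ∀ x : A, inner ℂ (T x) u = inner ℂ (a x) g

/-- DUAL: existence of the solution from the key lemma -/
def DualStmt : Prop := ∀ (n : ℕ) (D : Set (E n)) (t : ℝ) (K : Set (E n)) (Φ ψ : E n → ℝ)
  (η : ℕ → E n → ℝ), Wt D t K Φ ψ η → 0 < t → ∀ g : Fin n → E n → ℂ,
  (∀ j, MemLp (g j) 2 volume) → WCl D g →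
  ∃ u : E n → ℂ, AEStronglyMeasurable u (volume.restrict D) ∧
    IntegrableOn (fun z => ‖u z‖ ^ 2 * Real.exp (-(Φ z - 2 * ψ z))) D ∧ WDb D u g ∧
    ∫ z in D, ‖u z‖ ^ 2 * Real.exp (-(Φ z - 2 * ψ z)) ≤
      (4 / t) * ∫ z in D, (∑ j, ‖g j z‖ ^ 2) * Real.exp (-(Φ z - ψ z))

/-- H: Hoermander's theorem, weak form -/
def HStmt : Prop := ∀ (n : ℕ) (D : Set (E n)) (s : E n → ℝ), Exh D s → ∀ t : ℝ, 0 < t →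
  ∀ K : Set (E n), IsCompact K → K ⊆ D → ∀ α : Fin n → E n → ℂ,
  (∀ j, MemLp (α j) 2 volume) → WCl D α →
  ∃ u : E n → ℂ, MemLp u 2 volume ∧ (∀ z ∉ K, u z = 0) ∧ WDb (interior K) u α ∧
    ∫ z, ‖u z‖ ^ 2 * Real.exp (-(t * nsq z)) ≤ (4 / t) * N2 D t α

/-! ### part S -/

/-- LIP -/
def LipStmt : Prop := ∀ (n : ℕ), 1 ≤ n → ∀ (ρ : E n → ℝ) (κ₀ : ℝ), Nice n ρ κ₀ →
  ∃ L : ℝ, 1 ≤ L ∧ ∀ z w, |ρ z - ρ w| ≤ L * ‖z - w‖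

/-- NEAR -/
def NearStmt : Prop := ∀ (n : ℕ), 1 ≤ n → ∀ (ρ : E n → ℝ) (κ₀ : ℝ), Nice n ρ κ₀ →
  ∃ C κ₁ : ℝ, 0 < C ∧ 0 < κ₁ ∧ κ₁ ≤ κ₀ ∧ ∀ z, |ρ z| < κ₁ → ∃ q, ρ q = 0 ∧ ‖z - q‖ ≤ C * |ρ z|

/-- LEV -/
def LevStmt : Prop := ∀ (n : ℕ), 1 ≤ n → ∀ (ρ : E n → ℝ) (κ₀ : ℝ), Nice n ρ κ₀ →
  ∃ C κ₁ : ℝ, 0 < C ∧ 0 < κ₁ ∧ κ₁ ≤ κ₀ ∧ ∀ z, |ρ z| < κ₁ → ∀ w : E n,
    - (C * |ρ z| * nsq w) - C * ‖dl ρ z w‖ * Real.sqrt (nsq w) ≤ Lv ρ z w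

/-- the local defining functions -/
noncomputable def phi {n : ℕ} (ρ : E n → ℝ) (κ Λ : ℝ) (p z : E n) : ℝ :=
  ρ z - κ * Real.exp (-(Λ * nsq (z - p)))

/-- PC1 -/
def Pc1Stmt : Prop := ∀ (n : ℕ), 1 ≤ n → ∀ (ρ : E n → ℝ) (κ₀ : ℝ), Nice n ρ κ₀ →
  ∃ Λ h₀ κ₁ C : ℝ, 0 < Λ ∧ 0 < h₀ ∧ 0 < κ₁ ∧ κ₁ ≤ κ₀ ∧ 0 < C ∧
    ∀ (p : E n) (h κ : ℝ), 0 < h → h ≤ h₀ → 0 < κ → κ ≤ κ₁ → ∀ z : E n, nsq (z - p) ≤ h ^ 2 →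
      0 ≤ ρ z → phi ρ κ Λ p z ≤ 0 → ∀ w : E n,
        C * κ * Real.exp (-(Λ * nsq (z - p))) * nsq w -
          C * ‖dl (phi ρ κ Λ p) z w‖ * Real.sqrt (nsq w) ≤ Lv (phi ρ κ Λ p) z w

/-- PC2 -/
def Pc2Stmt : Prop := ∀ (n : ℕ) (φ : E n → ℝ) (p : E n) (h m c C : ℝ), ContDiff ℝ ∞ φ →
  0 < h → 0 < m → 0 < c → 0 < C →
  (∀ z : E n, nsq (z - p) ≤ h ^ 2 → -m ≤ φ z → φ z ≤ 0 → ∀ w : E n,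
    c * nsq w - C * ‖dl φ z w‖ * Real.sqrt (nsq w) ≤ Lv φ z w) →
  ∃ s : E n → ℝ, Exh {z | nsq (z - p) < h ^ 2 ∧ φ z < 0} s

/-- PIECE -/
def PieceStmt : Prop := ∀ (n : ℕ), 1 ≤ n → ∀ (ρ : E n → ℝ) (κ₀ : ℝ), Nice n ρ κ₀ →
  ∃ Λ h₀ κ₁ : ℝ, 0 < Λ ∧ 0 < h₀ ∧ 0 < κ₁ ∧ κ₁ ≤ κ₀ ∧
    ∀ (p : E n) (h κ : ℝ), 0 < h → h ≤ h₀ → 0 < κ → κ ≤ κ₁ →
      ∃ s : E n → ℝ, Exh {z | nsq (z - p) < h ^ 2 ∧ phi ρ κ Λ p z < 0} s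

/-- POU: partitions of unity at scale `h` -/
def PouStmt : Prop := ∀ (n : ℕ), 1 ≤ n → ∃ C : ℝ, 1 ≤ C ∧ ∀ h : ℝ, 0 < h → ∀ R : ℝ,
  ∃ (N : ℕ) (p : Fin N → E n) (χ : Fin N → E n → ℝ),
    (∀ i, ContDiff ℝ ∞ (χ i)) ∧ (∀ i z, 0 ≤ χ i z) ∧ (∀ i z, χ i z ≤ 1) ∧
    (∀ z, ‖z‖ ≤ R → ∑ i, χ i z = 1) ∧
    (∀ i, tsupport (χ i) ⊆ {z | nsq (z - p i) ≤ h ^ 2 / 8}) ∧
    (∀ i j z, ‖dbar j (cx (χ i)) z‖ ≤ C / h) ∧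
    (∀ z : E n, ((Finset.univ.filter fun i => nsq (z - p i) < h ^ 2).card : ℝ) ≤ C)

/-- GLUE -/
def GlueStmt : Prop := ∀ (n : ℕ) (D : Set (E n)) (N : ℕ) (W : Fin N → Set (E n))
  (χ : Fin N → E n → ℝ) (u : Fin N → E n → ℂ) (α : Fin n → E n → ℂ), IsOpen D →
  (∀ i, ContDiff ℝ ∞ (χ i)) → (∀ i, HasCompactSupport (χ i)) →
  (∀ i, tsupport (χ i) ∩ D ⊆ W i) → (∀ z ∈ D, ∑ i, χ i z = 1) →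
  (∀ i, MemLp (u i) 2 volume) → (∀ j, MemLp (α j) 2 volume) →
  (∀ i, WDb (W i) (u i) α) → WCl D α →
    WDb D (fun z => ∑ i, (χ i z : ℂ) * u i z)
      (fun j z => α j z + ∑ i, u i z * dbar j (cx (χ i)) z) ∧
    WCl D (fun j z => - ∑ i, u i z * dbar j (cx (χ i)) z)

/-- STEP -/
def StepStmt : Prop := ∀ (n : ℕ), 1 ≤ n → ∀ (ρ : E n → ℝ) (κ₀ : ℝ), Nice n ρ κ₀ →
  ∃ b C t₀ κ₁ : ℝ, 0 < b ∧ 0 < C ∧ 1 ≤ t₀ ∧ 0 < κ₁ ∧ κ₁ ≤ κ₀ ∧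
    ∀ κ t : ℝ, 0 < κ → κ ≤ κ₁ → t₀ ≤ t → ∀ α : Fin n → E n → ℂ,
      (∀ j, MemLp (α j) 2 volume) → WCl {z | ρ z < κ} α →
      ∃ (u : E n → ℂ) (α' : Fin n → E n → ℂ), MemLp u 2 volume ∧
        (∀ j, MemLp (α' j) 2 volume) ∧
        WDb {z | ρ z < κ * Real.exp (-(b / t))} u (fun j z => α j z - α' j z) ∧
        WCl {z | ρ z < κ * Real.exp (-(b / t))} α' ∧
        N2s {z | ρ z < κ * Real.exp (-(b / t))} t u ≤ C * N2 {z | ρ z < κ} t α ∧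
        N2 {z | ρ z < κ * Real.exp (-(b / t))} t α' ≤
          Real.exp (-1) * N2 {z | ρ z < κ} t α

/-- ROUND -/
def RoundStmt : Prop := ∀ (n : ℕ), 1 ≤ n → ∀ (ρ : E n → ℝ) (κ₀ : ℝ), Nice n ρ κ₀ →
  ∃ θ C t₀ κ₁ : ℝ, 0 < θ ∧ θ < 1 ∧ 0 < C ∧ 1 ≤ t₀ ∧ 0 < κ₁ ∧ κ₁ ≤ κ₀ ∧
    ∀ κ t : ℝ, 0 < κ → κ ≤ κ₁ → t₀ ≤ t → ∀ α : Fin n → E n → ℂ,
      (∀ j, MemLp (α j) 2 volume) → WCl {z | ρ z < κ} α →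
      ∃ (u : E n → ℂ) (α' : Fin n → E n → ℂ), MemLp u 2 volume ∧
        (∀ j, MemLp (α' j) 2 volume) ∧
        (∀ z, θ * κ ≤ ρ z → u z = 0 ∧ ∀ j, α' j z = 0) ∧
        WDb {z | ρ z < θ * κ} u (fun j z => α j z - α' j z) ∧
        WCl {z | ρ z < θ * κ} α' ∧
        ∫ z, ‖u z‖ ^ 2 ≤ Real.exp (C * t) * ∫ z in {z | ρ z < κ}, ∑ j, ‖α j z‖ ^ 2 ∧
        ∫ z, ∑ j, ‖α' j z‖ ^ 2 ≤ Real.exp (-t) * ∫ z in {z | ρ z < κ}, ∑ j, ‖α j z‖ ^ 2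

/-- SEQ -/
def SeqStmt : Prop := ∀ (n : ℕ), 1 ≤ n → ∀ (ρ : E n → ℝ) (κ₀ : ℝ), Nice n ρ κ₀ →
  ∃ θ C κ₁ : ℝ, 0 < θ ∧ θ < 1 ∧ 0 < C ∧ 0 < κ₁ ∧ κ₁ ≤ κ₀ ∧
    ∀ κ : ℝ, 0 < κ → κ ≤ κ₁ → ∀ (F₀ : E n → ℂ) (α₀ : Fin n → E n → ℂ),
      MemLp F₀ 2 volume → (∀ j, MemLp (α₀ j) 2 volume) → WDb {z | ρ z < κ} F₀ α₀ →
      ∃ (F : ℕ → E n → ℂ) (α : ℕ → Fin n → E n → ℂ) (u : ℕ → E n → ℂ),
        F 0 = F₀ ∧ α 0 = α₀ ∧ (∀ m z, F (m + 1) z = F m z - u m z) ∧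
        (∀ m, MemLp (F m) 2 volume) ∧ (∀ m j, MemLp (α m j) 2 volume) ∧
        (∀ m, MemLp (u m) 2 volume) ∧
        (∀ m, WDb {z | ρ z < θ ^ m * κ} (F m) (α m)) ∧
        (∀ m, ∫ z, ‖u m z‖ ^ 2 ≤
          Real.exp (C - (m : ℝ) ^ 2 / 4) * ∫ z, ∑ j, ‖α₀ j z‖ ^ 2) ∧
        (∀ m, ∫ z, ∑ j, ‖α m j z‖ ^ 2 ≤
          Real.exp (C - (m : ℝ) ^ 2 / 4) * ∫ z, ∑ j, ‖α₀ j z‖ ^ 2)

/-- kernels -/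
structure KerD (n : ℕ) (θ : ℝ) (φ : E n → ℝ) (V : Fin n → E n → ℂ) : Prop where
  smφ : ContDiff ℝ ∞ φ
  nn : ∀ y, 0 ≤ φ y
  int : ∫ y, φ y = 1
  supp : ∀ y, 1 ≤ ‖y‖ → φ y = 0
  smV : ∀ i, ContDiff ℝ ∞ (V i)
  suppV : ∀ i y, 1 ≤ ‖y‖ → V i y = 0
  eq : ∀ y, (((θ⁻¹) ^ (2 * n) * φ (θ⁻¹ • y) - φ y : ℝ) : ℂ) = ∑ i, dbar i (V i) y

/-- KER -/
def KerStmt : Prop := ∀ (n : ℕ), 1 ≤ n → ∀ θ : ℝ, 0 < θ → θ < 1 →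
  ∃ (φ : E n → ℝ) (V : Fin n → E n → ℂ), KerD n θ φ V

/-- dilated kernels `δ^{-2n} g(y/δ)` -/
noncomputable def scl {n : ℕ} (δ : ℝ) (g : E n → ℂ) (y : E n) : ℂ :=
  (((δ⁻¹) ^ (2 * n) : ℝ) : ℂ) * g (δ⁻¹ • y)

/-- BND: derivatives of convolutions with dilated kernels -/
def BndStmt : Prop := ∀ (n : ℕ) (g : E n → ℂ), ContDiff ℝ ∞ g → (∀ y, 1 ≤ ‖y‖ → g y = 0) →
  ∀ l : ℕ, ∃ C : ℝ, 0 ≤ C ∧ ∀ f : E n → ℂ, MemLp f 2 volume → ∀ δ : ℝ, 0 < δ → δ ≤ 1 →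
    ContDiff ℝ ∞ (conv f (scl δ g)) ∧
    ∀ z, ‖iteratedFDeriv ℝ l (conv f (scl δ g)) z‖ ≤
      C * (δ⁻¹) ^ (2 * n + l) * Real.sqrt (∫ w, ‖f w‖ ^ 2)

/-- TEL: the telescoping identity -/
def TelStmt : Prop := ∀ (n : ℕ) (θ : ℝ) (φ : E n → ℝ) (V : Fin n → E n → ℂ), 0 < θ → θ < 1 →
  KerD n θ φ V → ∀ (D : Set (E n)) (F : E n → ℂ) (α : Fin n → E n → ℂ), IsOpen D →
  MemLp F 2 volume → (∀ j, MemLp (α j) 2 volume) → WDb D F α →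
  ∀ (δ : ℝ) (z : E n), 0 < δ → closedBall z δ ⊆ D →
    (conv F (scl (θ * δ) (cx φ)) z - conv F (scl δ (cx φ)) z =
      (δ : ℂ) * ∑ i, conv (α i) (scl δ (V i)) z) ∧
    ∀ i, dbar i (conv F (scl δ (cx φ))) z = conv (α i) (scl δ (cx φ)) z

/-- CUTF: cutoff functions -/
def CutfStmt : Prop := ∀ (n : ℕ), 1 ≤ n → ∀ (ρ : E n → ℝ) (κ₀ : ℝ), Nice n ρ κ₀ →
  ∃ C : ℕ → ℝ, ∀ κ : ℝ, 0 < κ → κ ≤ κ₀ → ∃ ζ : E n → ℝ, ContDiff ℝ ∞ ζ ∧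
    (∀ z, ρ z < κ / 4 → ζ z = 1) ∧ (∀ z, κ / 2 ≤ ρ z → ζ z = 0) ∧
    ∀ l z, ‖iteratedFDeriv ℝ l ζ z‖ ≤ C l * (κ⁻¹) ^ l

/-- SUM: summation of the telescoping series -/
def SumStmt : Prop := ∀ (n : ℕ), 1 ≤ n → ∀ (ρ : E n → ℝ) (κ₀ : ℝ), Nice n ρ κ₀ →
  ∀ κ θ : ℝ, 0 < κ → κ ≤ κ₀ → 0 < θ → θ < 1 → ∀ (G : ℕ → E n → ℂ) (ε : ℕ → ℕ → ℝ),
    (∀ m, ContDiff ℝ ∞ (G m)) →
    (∀ (m l : ℕ) (z : E n), ρ z < θ ^ m * κ / 2 →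
      ‖iteratedFDeriv ℝ l (fun y => G (m + 1) y - G m y) z‖ ≤ ε m l) →
    (∀ N l : ℕ, Summable (fun m : ℕ => ((θ ^ m * κ)⁻¹) ^ N * ε m l)) →
    (∀ (i : Fin n) (z : E n), ρ z < 0 → Tendsto (fun m => dbar i (G m) z) atTop (𝓝 0)) →
    ∃ g : E n → ℂ, ContDiff ℝ ∞ g ∧ DifferentiableOn ℂ g {z | ρ z < 0} ∧
      ∀ (l : ℕ) (z : E n), ρ z < 0 →
        ‖iteratedFDeriv ℝ l g z - iteratedFDeriv ℝ l (G 0) z‖ ≤ ∑' m, ε m l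

/-- AVG: averages of derivatives -/
def AvgStmt : Prop := ∀ (n m : ℕ) (F : E n → ℂ), ContDiff ℝ m F → HasCompactSupport F →
  ∀ (φ : E n → ℝ) (δ : ℝ), 0 < δ → ContDiff ℝ ∞ φ → (∀ y, 0 ≤ φ y) → ∫ y, φ y = 1 →
    (∀ y, δ ≤ ‖y‖ → φ y = 0) →
    ∀ j : ℕ, j ≤ m → ∀ (x : E n) (A : E n [×j]→L[ℝ] ℂ) (η : ℝ),
      (∀ y ∈ ball x δ, ‖iteratedFDeriv ℝ j F y - A‖ ≤ η) →
      ‖iteratedFDeriv ℝ j (conv F (cx φ)) x - A‖ ≤ η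

/-- CUT: cutting off `F` -/
def CutStmt : Prop := ∀ (n : ℕ), 1 ≤ n → ∀ (ρ : E n → ℝ) (κ₀ : ℝ), Nice n ρ κ₀ →
  ∀ (κ : ℝ) (m : ℕ) (F : E n → ℂ), 0 < κ → κ ≤ κ₀ → ContDiffOn ℝ m F {z | ρ z < κ} →
    ∃ F' : E n → ℂ, ContDiff ℝ m F' ∧ HasCompactSupport F' ∧ ∀ z, ρ z < κ / 2 → F' z = F z

/-- EST: bounds for one term of the telescoping series -/
def EstStmt : Prop := ∀ (n : ℕ), 1 ≤ n → ∀ (ρ : E n → ℝ) (κ₀ : ℝ), Nice n ρ κ₀ →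
  ∀ (θ : ℝ) (φ : E n → ℝ) (V : Fin n → E n → ℂ), 0 < θ → θ < 1 → KerD n θ φ V →
  ∃ (c : ℝ) (C : ℕ → ℝ), 0 < c ∧ c ≤ 1 ∧ (∀ l, 0 ≤ C l) ∧
    (∀ (κ : ℝ) (z : E n), 0 < κ → ρ z < κ / 2 → closedBall z (c * κ) ⊆ {z | ρ z < κ}) ∧
    ∀ (κ : ℝ) (F u : E n → ℂ) (α : Fin n → E n → ℂ), 0 < κ → κ ≤ κ₀ → MemLp F 2 volume →
      MemLp u 2 volume → (∀ j, MemLp (α j) 2 volume) → WDb {z | ρ z < κ} F α →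
      (∀ (l : ℕ) (z : E n), ρ z < κ / 2 →
        ‖iteratedFDeriv ℝ l (fun y => conv (fun w => F w - u w) (scl (θ * (c * κ)) (cx φ)) y -
          conv F (scl (c * κ) (cx φ)) y) z‖ ≤
          C l * (κ⁻¹) ^ (2 * n + l) *
            (Real.sqrt (∫ w, ‖u w‖ ^ 2) + Real.sqrt (∫ w, ∑ j, ‖α j w‖ ^ 2))) ∧
      (∀ (i : Fin n) (z : E n), ρ z < κ / 2 →
        ‖dbar i (conv F (scl (c * κ) (cx φ))) z‖ ≤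
          C 0 * (κ⁻¹) ^ (2 * n) * Real.sqrt (∫ w, ∑ j, ‖α j w‖ ^ 2))

end Pool.Agent.DK
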